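import Pool.Agent.D0H8.MM.Defs
import Pool.Agent.D0H8.PQ.Mds

/-!
# The sets of semistable points
-/

set_option autoImplicit false

namespace Pool.Agent.D0H8.MM

open Finset
open Pool.Agent.X324.CF Pool.Agent.D0H8.PQ

variable {ρ n : ℕ}

/-- The pairing of integral vectors. -/
def pr (y c : Cl ρ) : ℤ := ∑ i, y i * c i

theorem pr_add (y c c' : Cl ρ) : pr y (c + c') = pr y c + pr y c' := by
  simp only [pr, Pi.add_apply, mul_add, Finset.sum_add_distrib]

theorem pr_neg (y c : Cl ρ) : pr y (-c) = -pr y c := by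
  simp only [pr, Pi.neg_apply, mul_neg, Finset.sum_neg_distrib]

theorem pr_nsmul (y : Cl ρ) (k : ℕ) (c : Cl ρ) : pr y (k • c) = k * pr y c := by
  simp only [pr, Pi.smul_apply, nsmul_eq_mul, Finset.mul_sum]
  exact Finset.sum_congr rfl fun i _ => by ring

theorem pr_zsmul (y : Cl ρ) (k : ℤ) (c : Cl ρ) : pr y (k • c) = k * pr y c := by
  simp only [pr, Pi.smul_apply, smul_eq_mul, Finset.mul_sum]
  exact Finset.sum_congr rfl fun i _ => by ring

theorem pr_comb (a b : ℤ) (y y' c : Cl ρ) : pr (a • y - b • y') c = a * pr y c - b * pr y' c := by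
  simp only [pr, Pi.sub_apply, Pi.smul_apply, smul_eq_mul, Finset.mul_sum, sub_mul,
    Finset.sum_sub_distrib]
  congr 1 <;> exact Finset.sum_congr rfl fun i _ => by ring

/-- The inequalities of the cone spanned by the `w i`, `i ∈ I`. -/
noncomputable def Ys (w : Fin n → Cl ρ) (I : Finset (Fin n)) : Finset (Cl ρ) :=
  Classical.choose (exists_ineq w I)

theorem mem_CI_iff {w : Fin n → Cl ρ} {I : Finset (Fin n)} {c : Cl ρ} :
    rv c ∈ CI w I ↔ ∀ y ∈ Ys w I, 0 ≤ pr y c := by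
  rw [Classical.choose_spec (exists_ineq w I)]
  refine forall₂_congr fun y _ => ?_
  rw [dot_int]
  unfold pr
  exact_mod_cast Iff.rfl

open Classical in
/-- All these inequalities. -/
noncomputable def All (w : Fin n → Cl ρ) : Finset (Cl ρ) :=
  Finset.univ.biUnion fun I : Finset (Fin n) => Ys w I

theorem mem_all {w : Fin n → Cl ρ} {I : Finset (Fin n)} {y : Cl ρ} (h : y ∈ Ys w I) :
    y ∈ All w := by
  classical
  exact Finset.mem_biUnion.2 ⟨I, Finset.mem_univ _, h⟩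

variable {R : Type*} [CommRing R] [IsDomain R] [Algebra ℂ R] {𝒜 : Cl ρ → Submodule ℂ R}
  [GradedAlgebra 𝒜] {x : Fin n → R} {w : Fin n → Cl ρ} {u₀ : Cl ρ}

omit [IsDomain R] in
theorem ss_iff (D : IsDream 𝒜 x w u₀) {c : Cl ρ} {p : R →ₐ[ℂ] ℂ} :
    p ∈ SS 𝒜 c ↔ ∀ y ∈ Ys w (supp x p), 0 ≤ pr y c := by
  rw [← mem_CI_iff]
  constructor
  · rintro ⟨m, hm, r, hr, hr0⟩
    obtain ⟨c', hc, hc0⟩ := exists_mon D.mem D.gen hr hr0
    refine CI_of_nat hm (fun i hi => hc0 i ?_) hc.symm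
    rw [mem_supp] at hi
    push Not at hi
    exact hi
  · intro h
    obtain ⟨k, hk, c', hc, hck⟩ := exists_nat h
    refine ⟨k, hk, mon x c', ?_, ?_⟩
    · rw [hck]
      exact mon_mem D.mem c'
    · rw [mon, map_prod]
      refine Finset.prod_ne_zero_iff.2 fun i _ => ?_
      rw [map_pow]
      by_cases hi : i ∈ supp x p
      · exact pow_ne_zero _ (mem_supp.1 hi)
      · rw [hc i hi, pow_zero]
        exact one_ne_zero

omit [IsDomain R] in
theorem sa_iff (D : IsDream 𝒜 x w u₀) {c γ : Cl ρ} :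
    SemiampleF 𝒜 c γ ↔ SS 𝒜 c ⊆ SS 𝒜 γ := by
  classical
  constructor
  · rintro ⟨m, hm, h⟩ p hp
    exact ⟨m, hm, h p hp⟩
  · intro h
    obtain ⟨m, hm, h1⟩ := exists_uniform (w := w) (β := γ)
      (Finset.univ.filter fun I => ∃ p ∈ SS 𝒜 c, supp x p = I) (by
        intro I hI
        obtain ⟨p, hp, rfl⟩ := (Finset.mem_filter.1 hI).2
        rw [mem_CI_iff]
        exact (ss_iff D).1 (h hp))
    refine ⟨m, hm, fun p hp => ?_⟩
    obtain ⟨c', hc, hcm⟩ := h1 (supp x p) (Finset.mem_filter.2 ⟨Finset.mem_univ _, p, hp, rfl⟩)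
    refine ⟨mon x c', ?_, ?_⟩
    · rw [hcm]
      exact mon_mem D.mem c'
    · rw [mon, map_prod]
      refine Finset.prod_ne_zero_iff.2 fun i _ => ?_
      rw [map_pow]
      by_cases hi : i ∈ supp x p
      · exact pow_ne_zero _ (mem_supp.1 hi)
      · rw [hc i hi, pow_zero]
        exact one_ne_zero

/-- A subgroup of a lattice is not a finite union of kernels. -/
theorem exists_avoid (W : AddSubgroup (Cl ρ)) (Z : Finset (Cl ρ))
    (hZ : ∀ z ∈ Z, ∃ γ ∈ W, pr z γ ≠ 0) : ∃ γ ∈ W, ∀ z ∈ Z, pr z γ ≠ 0 := by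
  classical
  induction Z using Finset.induction_on with
  | empty => exact ⟨0, W.zero_mem, fun z hz => absurd hz (Finset.notMem_empty z)⟩
  | insert z Z _ ih =>
    obtain ⟨γ, hγ, h⟩ := ih fun z hz => hZ z (Finset.mem_insert_of_mem hz)
    by_cases h0 : pr z γ = 0
    · obtain ⟨δ, hδ, hzδ⟩ := hZ z (Finset.mem_insert_self _ _)
      let N : ℕ := 1 + ∑ z ∈ Z, (pr z δ).natAbs
      refine ⟨N • γ + δ, W.add_mem (W.nsmul_mem hγ N) hδ, fun z' hz' => ?_⟩
      rw [pr_add, pr_nsmul]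
      rcases Finset.mem_insert.1 hz' with rfl | hz'
      · rw [h0, mul_zero, zero_add]
        exact hzδ
      · intro hcon
        have h1 : (pr z' δ).natAbs < N := by
          have := Finset.single_le_sum (f := fun z => (pr z δ).natAbs)
            (fun i _ => Nat.zero_le _) hz'
          simp only [N]
          omega
        have h2 : (pr z' δ).natAbs = N * (pr z' γ).natAbs := by
          have h3 : pr z' δ = -(N * pr z' γ) := by linarith
          rw [h3, Int.natAbs_neg, Int.natAbs_mul, Int.natAbs_natCast]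
        have h4 : 0 < (pr z' γ).natAbs := Int.natAbs_pos.2 (h z' hz')
        have h5 : N ≤ N * (pr z' γ).natAbs := Nat.le_mul_of_pos_right N h4
        omega
    · refine ⟨γ, hγ, fun z' hz' => ?_⟩
      rcases Finset.mem_insert.1 hz' with rfl | hz'
      · exact h0
      · exact h z' hz'

/-- A class near the ray of `u₀`. -/
theorem exists_scale (W : AddSubgroup (Cl ρ)) {u₀ : Cl ρ} (hu₀ : u₀ ∈ W) (Z : Finset (Cl ρ))
    (hZ : ∀ z ∈ Z, ∃ γ ∈ W, pr z γ ≠ 0) :
    ∃ u ∈ W, ∀ z ∈ Z, pr z u ≠ 0 ∧ (0 < pr z u₀ → 0 < pr z u) ∧ (pr z u₀ < 0 → pr z u < 0) := by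
  classical
  obtain ⟨γ, hγ, h⟩ := exists_avoid W Z hZ
  let N : ℕ := 1 + ∑ z ∈ Z, (pr z γ).natAbs
  have key : ∀ z ∈ Z, ((pr z γ).natAbs : ℤ) < N := by
    intro z hz
    have := Finset.single_le_sum (f := fun z => (pr z γ).natAbs) (fun i _ => Nat.zero_le _) hz
    have h1 : (pr z γ).natAbs < N := by simp only [N]; omega
    exact_mod_cast h1
  refine ⟨N • u₀ + γ, W.add_mem (W.nsmul_mem hu₀ N) hγ, fun z hz => ?_⟩
  have h1 := key z hz
  have h2 := h z hz
  rw [pr_add, pr_nsmul]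
  have h5 : (0 : ℤ) ≤ N := Int.natCast_nonneg _
  have h3 : 0 < pr z u₀ → 0 < (N : ℤ) * pr z u₀ + pr z γ := by
    intro h4
    have h6 : (N : ℤ) ≤ N * pr z u₀ := le_mul_of_one_le_right h5 h4
    omega
  have h3' : pr z u₀ < 0 → (N : ℤ) * pr z u₀ + pr z γ < 0 := by
    intro h4
    have h6 : (N : ℤ) ≤ N * (-pr z u₀) := le_mul_of_one_le_right h5 (by omega)
    rw [mul_neg] at h6
    omega
  refine ⟨?_, h3, h3'⟩
  rcases lt_trichotomy (pr z u₀) 0 with h4 | h4 | h4
  · exact (h3' h4).ne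
  · rw [h4, mul_zero, zero_add]
    exact h2
  · exact (h3 h4).ne'

end Pool.Agent.D0H8.MM
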