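import Pool.Agent.D0H8.PQ.Defs

/-!
# The minimal model program for quotients `(A × F) / G`: definitions

`X = (A × F) / G` is the quotient of `V × F` by `Γ`, where `F` is a normal projective variety and
`R = ⨁ 𝒜 β` its section ring for a free group `W = ℤ^ρ` of classes, which is finitely generated. For a
class `m` let `F_m` be the quotient by the torus of the set of the points of `Spec R` which are
semistable for `m`, and `X_m = (V × F_m) / Γ`.
-/

set_option autoImplicit false

namespace Pool.Agent.D0H8.MM

open Pool.Agent.W594.SYZ2 Pool.Agent.TH735.AQ Pool.Agent.X324.CF Pool.Agent.D0H8.PQ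

section Fibre

variable {ρ : ℕ} {R : Type*} [CommRing R] [Algebra ℂ R] (𝒜 : Cl ρ → Submodule ℂ R)

/-- The set of the points which are semistable for the class `m`. The variety `F_m` is the quotient of
this set by the torus, so it depends only on the set. -/
def SS (m : Cl ρ) : Set (R →ₐ[ℂ] ℂ) := {p | Semistable 𝒜 m p}

/-- `R = ⨁ 𝒜 β = ⨁ H⁰(F, O_F(β))` is the section ring of a normal projective variety `F` for a free
group `W = ℤ^ρ` of classes of Weil divisors, with ample class `u`, and `R` is generated by finitely many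
homogeneous elements `x i` of degrees `w i`: the variety `F` is not empty, the only functions on `F` are
the constants, the points which lie over `F` (the semistable points for `u`) have a complement of
codimension at least two in `Spec R`, and every class in `W` becomes semiample when a multiple of `u` is
added (the classes in `W` are `ℚ`-Cartier). If `W` has finite index in the group `Cl(F)^G` of the invariant
classes of a finite group `G`, then these conditions say that `F / G` is a Mori dream space. -/
structure IsDream {n : ℕ} (x : Fin n → R) (w : Fin n → Cl ρ) (u : Cl ρ) : Prop where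
  point : ∃ p : R →ₐ[ℂ] ℂ, Semistable 𝒜 u p
  const : ∀ r ∈ 𝒜 0, ∃ c : ℂ, r = algebraMap ℂ R c
  mem : ∀ i, x i ∈ 𝒜 (w i)
  gen : Algebra.adjoin ℂ (Set.range x) = ⊤
  codim : ∀ P : Ideal R, P.IsPrime → P.height = 1 →
    ∃ p : R →ₐ[ℂ] ℂ, Semistable 𝒜 u p ∧ ∀ r ∈ P, p r = 0
  ample : ∀ β : Cl ρ, ∃ m : ℕ, SemiampleF 𝒜 u (β + m • u)

end Fibre

section Quotient

variable {V R : Type*} [NormedAddCommGroup V] [NormedSpace ℂ V] [CommRing R] [Algebra ℂ R]
  {ρ : ℕ} (𝒜 : Cl ρ → Submodule ℂ R) (Γ : Grp V R)

/-- `X_m` is a `ℚ`-factorial birational model of `X` with ample class `m`: the class `m` is invariant,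
there are semistable points, and every invariant class becomes semiample on `F_m` when a multiple of
`m` is added. -/
structure IsModel (m : Cl ρ) : Prop where
  inv : Inv 𝒜 Γ m
  point : (SS 𝒜 m).Nonempty
  ample : ∀ γ, Inv 𝒜 Γ γ → ∃ k : ℕ, SemiampleF 𝒜 m (γ + k • m)

/-- There is a morphism `X_m → Z = X_c` to the model given by the class `c`, such that `-D` is ample over
`Z`, where `D` is a divisor on `X` with class `β`, and such that the relative Picard number is at most
one: a positive combination of `β` and the ample class `m` is the pullback of the ample class `c` of `Z`,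
and for any two invariant classes a nontrivial integral combination is a pullback from `Z`. -/
structure IsContraction (β m c : Cl ρ) : Prop where
  model : IsModel 𝒜 Γ m
  inv : Inv 𝒜 Γ c
  sub : SS 𝒜 m ⊆ SS 𝒜 c
  neg : ∃ a b k : ℕ, 0 < a ∧ 0 < b ∧ 0 < k ∧ a • β + b • m = k • c
  one : ∀ γ γ', Inv 𝒜 Γ γ → Inv 𝒜 Γ γ' → ∃ a b : ℤ, (a ≠ 0 ∨ b ≠ 0) ∧ ∃ k : ℕ,
    SemiampleF 𝒜 m ((a • γ + b • γ') + k • c) ∧ SemiampleF 𝒜 m (-(a • γ + b • γ') + k • c)

/-- `X_m' → Z` is the second part of the step which starts with the contraction `X_m → Z`: `D` is ample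
over `Z` on `X_m'`, and the divisors on `X_m'` are divisors on `X_m`: an effective divisor (given by a
homogeneous element `r` of `R`) which is not zero on `X_m'` is not zero on `X_m`. -/
structure IsCompletion (β m c m' : Cl ρ) : Prop where
  model : IsModel 𝒜 Γ m'
  sub : SS 𝒜 m' ⊆ SS 𝒜 c
  pos : ∃ a b k : ℕ, 0 < a ∧ 0 < b ∧ 0 < k ∧ a • β + b • c = k • m'
  div : ∀ γ, ∀ r ∈ 𝒜 γ, r ≠ 0 → (∃ p ∈ SS 𝒜 m', p r = 0) → ∃ p ∈ SS 𝒜 m, p r = 0

/-- A step `X_m ⇢ X_m'` of the minimal model program for `D`: a divisorial contraction or a flip. -/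
def Step (β : Cl ρ) (U U' : Set (R →ₐ[ℂ] ℂ)) : Prop :=
  U ≠ U' ∧ ∃ m c m', U = SS 𝒜 m ∧ U' = SS 𝒜 m' ∧ IsContraction 𝒜 Γ β m c ∧
    IsCompletion 𝒜 Γ β m c m'

/-- `X_m` has the structure of a Mori fibre space for `D`: a contraction `X_m → Z` such that no positive
multiple of `D` becomes effective when the pullback of a multiple of the ample class of `Z` is
added. -/
def MoriFibre (β : Cl ρ) (U : Set (R →ₐ[ℂ] ℂ)) : Prop :=
  ∃ m c, U = SS 𝒜 m ∧ IsContraction 𝒜 Γ β m c ∧
    ∀ a b : ℕ, 0 < a → ∀ r ∈ 𝒜 (a • β + b • c), r = 0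

end Quotient

end Pool.Agent.D0H8.MM
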