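import Pool.Agent.TH735.AQ.Fib

/-!
# The fibration given by a rational subspace
-/

set_option autoImplicit false

namespace Pool.Agent.D0H8.MM

open Finset
open Pool.Agent.W594.SYZ2 Pool.Agent.W594.SYZ2.TQ Pool.Agent.TH735.AQ

variable {V W : Type*} [NormedAddCommGroup V] [NormedSpace ℂ V] [FiniteDimensional ℂ V]
  [NormedAddCommGroup W] [NormedSpace ℂ W] [FiniteDimensional ℂ W]
  {Γ : Subgroup (V ≃ᵃ[ℂ] V)}

/-- The vectors in the span of a set of lattice vectors are near to lattice vectors in the span. -/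
theorem near (S : AddSubgroup V) (S' : Set V) (hS' : ∀ b ∈ S', b ∈ S) :
    ∃ C : ℝ, ∀ v ∈ Submodule.span ℝ S', ∃ b ∈ S, b ∈ Submodule.span ℝ S' ∧ ‖b + v‖ ≤ C := by
  classical
  have : FiniteDimensional ℝ V := FiniteDimensional.complexToReal V
  obtain ⟨t, ht, hspan, hli⟩ := exists_linearIndependent ℝ S'
  have : Finite t := hli.finite
  have : Fintype t := Fintype.ofFinite t
  refine ⟨∑ i : t, ‖(i : V)‖, fun v hv => ?_⟩
  rw [← hspan] at hv
  have h1 : v ∈ Submodule.span ℝ (Set.range fun i : t => (i : V)) := by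
    rwa [Subtype.range_coe]
  obtain ⟨c, rfl⟩ := (Submodule.mem_span_range_iff_exists_fun ℝ).1 h1
  refine ⟨-∑ i : t, ⌊c i⌋ • (i : V), ?_, ?_, ?_⟩
  · exact S.neg_mem (S.sum_mem fun i _ => S.zsmul_mem (hS' _ (ht i.2)) _)
  · refine Submodule.neg_mem _ (Submodule.sum_mem _ fun i _ => ?_)
    rw [← Int.cast_smul_eq_zsmul ℝ]
    exact Submodule.smul_mem _ _ (Submodule.subset_span (ht i.2))
  · have h2 : -∑ i : t, ⌊c i⌋ • (i : V) + ∑ i : t, c i • (i : V)
        = ∑ i : t, Int.fract (c i) • (i : V) := by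
      rw [← Finset.sum_neg_distrib, ← Finset.sum_add_distrib]
      refine Finset.sum_congr rfl fun i _ => ?_
      rw [← Int.cast_smul_eq_zsmul ℝ, ← neg_smul, ← add_smul, Int.fract]
      congr 1
      ring
    rw [h2]
    refine (norm_sum_le _ _).trans (Finset.sum_le_sum fun i _ => ?_)
    have h3 : ‖Int.fract (c i) • (i : V)‖ = |Int.fract (c i)| * ‖(i : V)‖ := by
      rw [norm_smul, Real.norm_eq_abs]
    rw [h3, abs_of_nonneg (Int.fract_nonneg _)]
    exact mul_le_of_le_one_left (norm_nonneg _) (Int.fract_lt_one _).le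

/-- The image of the lattice has no small nonzero vectors. -/
theorem small (hΓ : IsTorusQuotient Γ) {π : V →ₗ[ℂ] W} (hsurj : Function.Surjective π)
    (hrat : ∀ v, π v = 0 → v ∈ Submodule.span ℝ {b | b ∈ latt Γ ∧ π b = 0}) :
    ∃ ε : ℝ, 0 < ε ∧ ∀ b ∈ latt Γ, ‖π b‖ < ε → π b = 0 := by
  classical
  have : FiniteDimensional ℝ V := FiniteDimensional.complexToReal V
  have : ProperSpace V := FiniteDimensional.proper ℂ V
  obtain ⟨C, hC⟩ := near (latt Γ) {b | b ∈ latt Γ ∧ π b = 0} fun b hb => hb.1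
  obtain ⟨s, hs⟩ := π.exists_rightInverse_of_surjective (LinearMap.range_eq_top.2 hsurj)
  have hs' : ∀ w, π (s w) = w := fun w => LinearMap.congr_fun hs w
  let s' : W →L[ℂ] V := LinearMap.toContinuousLinearMap s
  have hsn : ∀ w, ‖s w‖ ≤ ‖s'‖ * ‖w‖ := fun w => s'.le_opNorm w
  -- finitely many lattice vectors
  have hd : DiscreteTopology (latt Γ) := hΓ.discrete
  have hcl : IsClosed (latt Γ : Set V) := AddSubgroup.isClosed_of_discrete
  have hfin : (Metric.closedBall (0 : V) (C + ‖s'‖) ∩ (latt Γ : Set V)).Finite :=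
    Metric.finite_isBounded_inter_isClosed ⟨hd⟩ Metric.isBounded_closedBall hcl
  let T : Set W := (π '' (Metric.closedBall (0 : V) (C + ‖s'‖) ∩ (latt Γ : Set V))) \ {0}
  have hT : T.Finite := (hfin.image _).subset Set.sdiff_subset
  have h0 : (0 : W) ∈ Tᶜ := fun h => h.2 rfl
  obtain ⟨ε, hε, hball⟩ := Metric.isOpen_iff.1 hT.isClosed.isOpen_compl 0 h0
  refine ⟨min ε 1, lt_min hε one_pos, fun b hb hlt => ?_⟩
  by_contra hne
  have h1 : π (b - s (π b)) = 0 := by rw [map_sub, hs', sub_self]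
  obtain ⟨b', hb', hb'K, hn⟩ := hC _ (hrat _ h1)
  have hb'0 : π b' = 0 := by
    have h2 : Submodule.span ℝ {b | b ∈ latt Γ ∧ π b = 0}
        ≤ LinearMap.ker (π.restrictScalars ℝ) := by
      rw [Submodule.span_le]
      exact fun x hx => hx.2
    exact h2 hb'K
  have h3 : ‖b' + b‖ ≤ C + ‖s'‖ := by
    have h4 : b' + b = (b' + (b - s (π b))) + s (π b) := by abel
    rw [h4]
    refine (norm_add_le _ _).trans (add_le_add hn ?_)
    refine (hsn _).trans ?_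
    have h5 : ‖π b‖ ≤ 1 := (hlt.trans_le (min_le_right _ _)).le
    exact mul_le_of_le_one_right (norm_nonneg _) h5
  have h6 : π (b' + b) = π b := by rw [map_add, hb'0, zero_add]
  have h7 : π b ∈ T := ⟨⟨b' + b, ⟨by rwa [mem_closedBall_zero_iff],
    (latt Γ).add_mem hb' hb⟩, h6⟩, hne⟩
  have h8 : π b ∈ Metric.ball (0 : W) ε := by
    rw [mem_ball_zero_iff]
    exact hlt.trans_le (min_le_left _ _)
  exact hball h8 h7

omit [FiniteDimensional ℂ V] [FiniteDimensional ℂ W] in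
theorem mem_latt_base (hΓ : IsTorusQuotient Γ) {π : V →ₗ[ℂ] W} (w : W)
    (hw : w ∈ latt (Del Γ π)) : ∃ b ∈ latt Γ, π b = Nat.card (Lin Γ) • w := by
  have := finite_Lin hΓ
  obtain ⟨γ, hγ, h⟩ := hw
  let g : Γ := ⟨γ, hγ⟩
  have hp : ∀ (n : ℕ) (v : V), π (((g ^ n : Γ) : V ≃ᵃ[ℂ] V) v) = n • w + π v := by
    intro n
    induction n with
    | zero => intro v; rw [pow_zero, zero_smul, zero_add]; rfl
    | succ n ih =>
      intro v
      have h1 : ((g ^ (n + 1) : Γ) : V ≃ᵃ[ℂ] V) v = ((g ^ n : Γ) : V ≃ᵃ[ℂ] V) (γ v) := by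
        rw [pow_succ]
        rfl
      rw [h1, ih, ← h v]
      change n • w + (w + π v) = (n + 1) • w + π v
      rw [succ_nsmul, add_assoc]
  set M := Nat.card (Lin Γ) with hM
  have hlin : ∀ w, ((g ^ M : Γ) : V ≃ᵃ[ℂ] V).linear w = w := by
    let g' : Lin Γ := ⟨γ.linear, γ, hγ, rfl⟩
    have hg : ∀ n : ℕ, ((g' ^ n : Lin Γ) : V ≃ₗ[ℂ] V) = ((g ^ n : Γ) : V ≃ᵃ[ℂ] V).linear := by
      intro n
      have e1 : ((g' ^ n : Lin Γ) : V ≃ₗ[ℂ] V) = (g' : V ≃ₗ[ℂ] V) ^ n := rfl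
      have e2 : ((g ^ n : Γ) : V ≃ᵃ[ℂ] V) = γ ^ n := rfl
      have e3 : (γ ^ n).linear = AffineEquiv.linearHom (γ ^ n) := rfl
      rw [e1, e2, e3, map_pow]
      rfl
    intro w
    rw [← hg M, hM, pow_card_eq_one']
    rfl
  obtain ⟨hb, -⟩ := eq_tr (g ^ M) hlin
  refine ⟨_, hb, ?_⟩
  rw [hp, map_zero, add_zero]

theorem discrete_base (hΓ : IsTorusQuotient Γ) {π : V →ₗ[ℂ] W} (hsurj : Function.Surjective π)
    (hrat : ∀ v, π v = 0 → v ∈ Submodule.span ℝ {b | b ∈ latt Γ ∧ π b = 0}) :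
    DiscreteTopology (latt (Del Γ π)) := by
  have := finite_Lin hΓ
  obtain ⟨ε, hε, h⟩ := small hΓ hsurj hrat
  have hM : 0 < Nat.card (Lin Γ) := Nat.card_pos
  have hM' : (0 : ℝ) < Nat.card (Lin Γ) := by exact_mod_cast hM
  refine discreteTopology_of_isOpen_singleton_zero ?_
  rw [Metric.isOpen_singleton_iff]
  refine ⟨ε / Nat.card (Lin Γ), div_pos hε hM', fun y hy => ?_⟩
  obtain ⟨b, hb, hbw⟩ := mem_latt_base hΓ (y : W) y.2
  have h1 : ‖(y : W)‖ < ε / Nat.card (Lin Γ) := by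
    rw [dist_eq_norm, sub_zero] at hy
    exact hy
  have h2 : ‖π b‖ < ε := by
    rw [hbw, ← Nat.cast_smul_eq_nsmul ℝ, norm_smul, Real.norm_natCast]
    rw [lt_div_iff₀ hM'] at h1
    linarith
  have h3 := h b hb h2
  rw [hbw, ← Nat.cast_smul_eq_nsmul ℝ, smul_eq_zero] at h3
  exact Subtype.ext (h3.resolve_left hM'.ne')

/-- The fibration given by a rational subspace. -/
theorem fibration_of_rational (hΓ : IsTorusQuotient Γ) (K : Submodule ℂ V)
    (hst : ∀ γ ∈ Γ, ∀ v ∈ K, γ.linear v ∈ K)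
    (hrat : ∀ v ∈ K, v ∈ Submodule.span ℝ {b | b ∈ latt Γ ∧ b ∈ K}) :
    ∃ (k : ℕ) (Δ : Subgroup ((Fin k → ℂ) ≃ᵃ[ℂ] (Fin k → ℂ))) (π : V →ₗ[ℂ] (Fin k → ℂ)),
      (∀ v, π v = 0 ↔ v ∈ K) ∧ IsFibration Γ Δ π := by
  let n := Module.finrank ℂ (V ⧸ K)
  let e : (V ⧸ K) ≃ₗ[ℂ] (Fin n → ℂ) := (Module.finBasis ℂ (V ⧸ K)).equivFun
  let π : V →ₗ[ℂ] (Fin n → ℂ) := (e : (V ⧸ K) →ₗ[ℂ] (Fin n → ℂ)) ∘ₗ K.mkQ
  have hker : ∀ v, π v = 0 ↔ v ∈ K := by
    intro v
    change e (K.mkQ v) = 0 ↔ v ∈ K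
    rw [LinearEquiv.map_eq_zero_iff, Submodule.mkQ_apply, Submodule.Quotient.mk_eq_zero]
  have hsurj : Function.Surjective π := e.surjective.comp K.mkQ_surjective
  have hrat' : ∀ v, π v = 0 → v ∈ Submodule.span ℝ {b | b ∈ latt Γ ∧ π b = 0} := by
    intro v hv
    have h1 := hrat v ((hker v).1 hv)
    have h2 : {b | b ∈ latt Γ ∧ π b = 0} = {b | b ∈ latt Γ ∧ b ∈ K} := by
      ext b
      simp only [Set.mem_ofPred_eq, hker]
    rwa [h2]
  refine ⟨n, Del Γ π, π, hker, hsurj, ?_, fun δ hδ => hδ, discrete_base hΓ hsurj hrat', ?_, ?_⟩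
  · intro γ hγ
    refine exists_Del π hsurj ?_ γ hγ
    intro γ hγ v hv
    rw [hker] at hv ⊢
    exact hst γ hγ v hv
  · have h1 : (π.restrictScalars ℝ) '' (latt Γ : Set V) ⊆ (latt (Del Γ π) : Set (Fin n → ℂ)) := by
      rintro _ ⟨b, hb, rfl⟩
      exact latt_of_latt hb
    apply top_le_iff.1
    have h2 : Submodule.span ℝ ((π.restrictScalars ℝ) '' (latt Γ : Set V)) = ⊤ := by
      rw [Submodule.span_image, hΓ.span_top, Submodule.map_top, LinearMap.range_eq_top]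
      exact hsurj
    rw [← h2]
    exact Submodule.span_mono h1
  · obtain ⟨s, hs⟩ := π.exists_rightInverse_of_surjective (LinearMap.range_eq_top.2 hsurj)
    have hs' : ∀ w, π (s w) = w := fun w => LinearMap.congr_fun hs w
    have h1 := (hΓ.finite_linear.image
      (fun A : V ≃ₗ[ℂ] V => π ∘ₗ (A : V →ₗ[ℂ] V) ∘ₗ s)).preimage
      (LinearEquiv.toLinearMap_injective (R := ℂ) (M := Fin n → ℂ) (M₂ := Fin n → ℂ)).injOn
    refine h1.subset ?_
    rintro B ⟨δ, ⟨γ, hγ, h⟩, rfl⟩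
    refine ⟨γ.linear, ⟨γ, hγ, rfl⟩, ?_⟩
    refine LinearMap.ext fun w => ?_
    change π (γ.linear (s w)) = δ.linear w
    have h2 := h (s w)
    rw [hs', act δ w, act γ (s w), map_add] at h2
    have h3 := h 0
    rw [map_zero] at h3
    rw [h3] at h2
    exact (add_right_cancel h2).symm

end Pool.Agent.D0H8.MM
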