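import Pool.Agent.D0H8.MM.Main

/-!
# Good minimal models
-/

set_option autoImplicit false

namespace Pool.Agent.D0H8.MM

open Pool.Agent.W594.SYZ2 Pool.Agent.W594.SYZ2.TQ Pool.Agent.TH735.AQ Pool.Agent.X324.CF
open Pool.Agent.R893.TQ (BaseFree)
open Pool.Agent.R800.UA (gl3 gl3_pos card_dvd baseFree_of_dvd)
open Pool.Agent.R800.UB (fibration_root bpf_of_pullsBack)
open Pool.Agent.D0H8.PQ

variable {V R : Type*} [NormedAddCommGroup V] [NormedSpace ℂ V] [CommRing R]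
  [Algebra ℂ R] {ρ n : ℕ} {𝒜 : Cl ρ → Submodule ℂ R} {Γ : Grp V R} {x : Fin n → R}
  {w : Fin n → Cl ρ} {u₀ m : Cl ρ} {H : V → V → ℂ}

theorem quot_model (hQ : IsQuotient 𝒜 u₀ Γ) (hm : Inv 𝒜 Γ m) : IsQuotient 𝒜 m Γ :=
  ⟨hQ.torus, hQ.finite, hQ.perm, hm⟩

variable [FiniteDimensional ℂ V] [IsDomain R] [GradedAlgebra 𝒜]

/-- Effective sheaves whose class is semiample on `F_m`. -/
theorem eff_model (D : IsDream 𝒜 x w u₀) (hQ : IsQuotient 𝒜 m Γ)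
    {𝓛 : Sheaf 𝒜 Γ} (hc : 𝓛.IsChern H) {f : V → R} (hf : 𝓛.IsSection f) (h0 : ∃ v, f v ≠ 0)
    {k : ℕ} (hk : FreeF 𝒜 m 𝓛.deg k) :
    Free 𝓛 m (4 * gl3 (Module.finrank ℂ V) ^ 8 * Nat.card (autF Γ) * k) := by
  classical
  have := hQ.fin_gal
  have : Fintype (gal Γ) := Fintype.ofFinite _
  have hn : IsNefForm H := Sheaf.nef_of_section hQ hc hf h0
  obtain ⟨v₀, hv₀⟩ := h0
  obtain ⟨p, hp⟩ := exists_point (finType D) (nrm_ne_zero (K := gal Γ) hv₀)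
  have hc' := 𝓛.toLB_chern hQ hc
  obtain ⟨hH', F, hFd, hFe⟩ := hc'
  have hpot : IsPot (𝓛.toLB hQ) (fun v w => (expo Γ : ℂ) * H v w) F := ⟨hFd, hFe⟩
  let θ : V → ℂ := fun v => p (nrm (gal Γ) (f v)) ^ Nat.card (Lin (base Γ))
  have hθ : Differentiable ℂ θ := by
    have h2 : (fun v => p (nrm (gal Γ) (f v))) = fun v => ∏ ψ : gal Γ, p (ψ.1 (f v)) := by
      funext v
      rw [nrm, map_prod]
    have h3 : Differentiable ℂ fun v => p (nrm (gal Γ) (f v)) := by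
      rw [h2]
      exact diff_prod Finset.univ (fun (ψ : gal Γ) v => p (ψ.1 (f v))) fun ψ _ =>
        hf.holo (p.toLinearMap ∘ₗ ψ.1.toLinearMap)
    exact h3.pow _
  have hroot := chi_one hQ.torus hH' hpot hθ ⟨v₀, pow_ne_zero _ hp⟩ (by
    intro b hb v
    obtain ⟨γ, hγ, hγb⟩ := hb
    have h2 : f (b + v) = 𝓛.e ⟨γ, hγ⟩ v • γ.2 (f v) := by
      have h3 := hf.eq ⟨γ, hγ⟩ v
      have h4 : γ.1 v = b + v := by
        have h5 : γ.1 = AffineEquiv.constVAdd ℂ V b := hγb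
        rw [h5]
        rfl
      rw [← h4]
      exact h3
    have h6 : (𝓛.toLB hQ).e (tr b ⟨γ, hγ, hγb⟩) v = 𝓛.e ⟨γ, hγ⟩ v ^ expo Γ := by
      rw [← 𝓛.toLB_e hQ ⟨γ, hγ⟩ v]
      congr 1
      exact Subtype.ext hγb.symm
    simp only [θ]
    rw [h2, nrm_smul_map (mem_gal hγ), map_smul, smul_eq_mul, mul_pow, h6, ← pow_mul,
      ← Nat.card_eq_fintype_card, expo, mul_comm (Nat.card (gal Γ))])
  obtain ⟨k', Δ, π, -, hfib, hpb⟩ := fibration_root hQ.torus rfl hH' hpot (nef_expo hn)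
    fun b hb hbK => by rw [hroot b hb hbK, one_pow]
  have h2 := bpf_of_pullsBack hfib hpb
  obtain ⟨c, hcn⟩ := card_dvd hQ.torus (rfl : Module.finrank ℂ V = _)
  have h3 : BaseFree ((𝓛.toLB hQ).pow (4 * gl3 (Module.finrank ℂ V) ^ 7 * c)) :=
    baseFree_of_dvd ⟨c, rfl⟩ h2
  have h4 := free_of hQ 𝓛 h3 hk
  have h5 : expo Γ * (4 * gl3 (Module.finrank ℂ V) ^ 7 * c) * k
      = 4 * gl3 (Module.finrank ℂ V) ^ 8 * Nat.card (autF Γ) * k := by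
    rw [expo, autF_eq]
    calc Nat.card (Lin (base Γ)) * Nat.card (gal Γ) *
          (4 * gl3 (Module.finrank ℂ V) ^ 7 * c) * k
        = 4 * (gl3 (Module.finrank ℂ V) ^ 7 * (Nat.card (Lin (base Γ)) * c)) *
          Nat.card (gal Γ) * k := by ring
      _ = 4 * gl3 (Module.finrank ℂ V) ^ 8 * Nat.card (gal Γ) * k := by rw [← hcn, ← pow_succ]
  rwa [h5] at h4

/-- The minimal model is good. -/
theorem good (D : IsDream 𝒜 x w u₀) (hQ₀ : IsQuotient 𝒜 u₀ Γ) (hM : IsModel 𝒜 Γ m)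
    {𝓛 : Sheaf 𝒜 Γ} (hF : SemiampleF 𝒜 m 𝓛.deg) (hc : 𝓛.IsChern H) (hn : IsNefForm H)
    (h : HOneZero (base Γ) ∨ Effective 𝓛) : 𝓛.IsSemiample m := by
  have hQ := quot_model hQ₀ hM.inv
  obtain ⟨k, hk, h2⟩ := hF
  rcases h with h | ⟨j, hj, f, hf, h0⟩
  · have h3 : FreeF 𝒜 m 𝓛.deg k := h2
    exact ⟨_, pos_gl (k := 6) (n := Module.finrank ℂ V) hQ hk, eff_one hQ h rfl hc hn h3⟩
  · have h3 : FreeF 𝒜 m (𝓛.pow j).deg k := FreeF.nsmul (m := k) h2 j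
    have h4 := eff_model D hQ (Sheaf.chern_pow hc j) hf.sec h0 h3
    exact ⟨_, Nat.mul_pos hj (pos_gl (k := 8) (n := Module.finrank ℂ V) hQ hk), free_pow h4⟩

end Pool.Agent.D0H8.MM
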