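import Pool.Agent.D0H8.MM.Comb
import Pool.Agent.D0H8.PQ.Main

/-!
# The minimal model program with scaling
-/

set_option autoImplicit false

namespace Pool.Agent.D0H8.MM

open Finset
open Pool.Agent.X324.CF Pool.Agent.D0H8.PQ

variable {V R : Type*} [NormedAddCommGroup V] [NormedSpace ℂ V] [CommRing R] [IsDomain R]
  [Algebra ℂ R] {ρ n : ℕ} {𝒜 : Cl ρ → Submodule ℂ R} [GradedAlgebra 𝒜] {Γ : Grp V R}
  {x : Fin n → R} {w : Fin n → Cl ρ} {u₀ β u : Cl ρ}

/-- The group of the invariant classes. -/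
def invW (𝒜 : Cl ρ → Submodule ℂ R) (Γ : Grp V R) : AddSubgroup (Cl ρ) where
  carrier := {γ | Inv 𝒜 Γ γ}
  zero_mem' := Inv.zero
  add_mem' := Inv.add
  neg_mem' := Inv.neg

/-- The properties of the scaling class `u`. -/
structure Gen (𝒜 : Cl ρ → Submodule ℂ R) (Γ : Grp V R) (w : Fin n → Cl ρ) (u₀ β u : Cl ρ) :
    Prop where
  inv : Inv 𝒜 Γ u
  ss : SS 𝒜 u = SS 𝒜 u₀
  ne : ∀ y ∈ All w, (∃ γ, Inv 𝒜 Γ γ ∧ pr y γ ≠ 0) → pr y u ≠ 0
  det : ∀ y ∈ All w, ∀ y' ∈ All w, pr y β * pr y' u = pr y' β * pr y u →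
    ∀ γ, Inv 𝒜 Γ γ → pr y β * pr y' γ = pr y' β * pr y γ

omit [IsDomain R] in
theorem vanish (D : IsDream 𝒜 x w u₀) {p : R →ₐ[ℂ] ℂ} (hp : p ∈ SS 𝒜 u₀) {y : Cl ρ}
    (hy : y ∈ Ys w (supp x p)) (h0 : pr y u₀ = 0) (γ : Cl ρ) : pr y γ = 0 := by
  have key : ∀ γ : Cl ρ, 0 ≤ pr y γ := by
    intro γ
    obtain ⟨m, hm⟩ := D.ample γ
    have h1 := (ss_iff D).1 ((sa_iff D).1 hm hp) y hy
    rwa [pr_add, pr_nsmul, h0, mul_zero, add_zero] at h1
  have h1 := key γ
  have h2 := key (-γ)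
  rw [pr_neg] at h2
  omega

omit [IsDomain R] in
theorem exists_gen (D : IsDream 𝒜 x w u₀) (hu₀ : Inv 𝒜 Γ u₀) (β : Cl ρ) :
    ∃ u, Gen 𝒜 Γ w u₀ β u := by
  classical
  let Z₁ : Finset (Cl ρ) := (All w).filter fun y => ∃ γ ∈ invW 𝒜 Γ, pr y γ ≠ 0
  let Z₂ : Finset (Cl ρ) := ((All w ×ˢ All w).image
    fun q => pr q.1 β • q.2 - pr q.2 β • q.1).filter fun y => ∃ γ ∈ invW 𝒜 Γ, pr y γ ≠ 0
  obtain ⟨u, hu, hZ⟩ := exists_scale (invW 𝒜 Γ) (u₀ := u₀) hu₀ (Z₁ ∪ Z₂) (by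
    intro z hz
    rcases Finset.mem_union.1 hz with hz | hz
    · exact (Finset.mem_filter.1 hz).2
    · exact (Finset.mem_filter.1 hz).2)
  have hmem : ∀ y ∈ All w, (∃ γ, Inv 𝒜 Γ γ ∧ pr y γ ≠ 0) → y ∈ Z₁ ∪ Z₂ := fun y hy h =>
    Finset.mem_union_left _ (Finset.mem_filter.2 ⟨hy, h⟩)
  refine ⟨u, hu, ?_, fun y hy h => (hZ y (hmem y hy h)).1, ?_⟩
  · ext p
    constructor
    · intro hp
      rw [ss_iff D] at hp ⊢
      intro y hy
      by_contra hneg
      push Not at hneg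
      have h1 := hZ y (hmem y (mem_all hy) ⟨u₀, hu₀, hneg.ne⟩)
      have h2 := h1.2.2 hneg
      have h3 := hp y hy
      omega
    · intro hp
      rw [ss_iff D]
      intro y hy
      have h1 := (ss_iff D).1 hp y hy
      rcases h1.eq_or_lt with h2 | h2
      · exact (vanish D hp hy h2.symm u).ge
      · exact ((hZ y (hmem y (mem_all hy) ⟨u₀, hu₀, h2.ne'⟩)).2.1 h2).le
  · intro y hy y' hy' h γ hγ
    by_contra hne
    have h1 : pr y β • y' - pr y' β • y ∈ Z₁ ∪ Z₂ := by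
      refine Finset.mem_union_right _ (Finset.mem_filter.2 ⟨?_, γ, hγ, ?_⟩)
      · exact Finset.mem_image.2 ⟨(y, y'), Finset.mem_product.2 ⟨hy, hy'⟩, rfl⟩
      · rw [pr_comb]
        exact sub_ne_zero.2 hne
    apply (hZ _ h1).1
    rw [pr_comb]
    exact sub_eq_zero.2 h

/-! ### The ray -/

/-- The class proportional to `β + t u`. -/
def cl (β u : Cl ρ) (t : ℚ) : Cl ρ := t.den • β + t.num.toNat • u

/-- The value of the linear form `y` at `β + t u`. -/
def val (β u y : Cl ρ) (t : ℚ) : ℚ := pr y β + t * pr y u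

theorem pr_cl {y : Cl ρ} {t : ℚ} (ht : 0 < t) : (pr y (cl β u t) : ℚ) = t.den * val β u y t := by
  have h1 : ((t.num.toNat : ℤ) : ℚ) = t.num := by
    rw [Int.toNat_of_nonneg (Rat.num_pos.2 ht).le]
  have h2 : (t.num : ℚ) = t * t.den := (Rat.mul_den_eq_num t).symm
  rw [cl, pr_add, pr_nsmul, pr_nsmul, val]
  push_cast
  have h3 : ((t.num.toNat : ℕ) : ℚ) = t * t.den := by
    rw [← h2, ← h1]
    rfl
  rw [h3]
  ring

theorem pr_cl_nonneg {y : Cl ρ} {t : ℚ} (ht : 0 < t) : 0 ≤ pr y (cl β u t) ↔ 0 ≤ val β u y t := by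
  have h1 := pr_cl (β := β) (u := u) (y := y) ht
  have h2 : (0 : ℚ) < t.den := by exact_mod_cast t.den_pos
  constructor
  · intro h
    have h3 : (0 : ℚ) ≤ pr y (cl β u t) := by exact_mod_cast h
    rw [h1] at h3
    exact nonneg_of_mul_nonneg_right h3 h2
  · intro h
    have h3 : (0 : ℚ) ≤ pr y (cl β u t) := by
      rw [h1]
      exact mul_nonneg h2.le h
    exact_mod_cast h3

theorem pr_cl_zero {y : Cl ρ} {t : ℚ} (ht : 0 < t) (h : pr y (cl β u t) = 0) :
    val β u y t = 0 := by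
  have h1 := pr_cl (β := β) (u := u) (y := y) ht
  have h2 : (t.den : ℚ) ≠ 0 := by exact_mod_cast t.den_pos.ne'
  rw [h, Int.cast_zero] at h1
  exact (mul_eq_zero.1 h1.symm).resolve_left h2

theorem comb {s t : ℚ} (hs : 0 < s) (hst : s < t) :
    ∃ a b k : ℕ, 0 < a ∧ 0 < b ∧ 0 < k ∧ a • β + b • cl β u t = k • cl β u s := by
  have ht : 0 < t := hs.trans hst
  have h1 : 0 < s.num := Rat.num_pos.2 hs
  have h2 : 0 < t.num := Rat.num_pos.2 ht
  have h3 : s.num.toNat * t.den < t.num.toNat * s.den := by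
    have h4 := Rat.lt_iff s t |>.1 hst
    zify
    rw [Int.toNat_of_nonneg h1.le, Int.toNat_of_nonneg h2.le]
    exact h4
  refine ⟨t.num.toNat * s.den - s.num.toNat * t.den, s.num.toNat, t.num.toNat, by omega,
    by omega, by omega, ?_⟩
  have h5 : (t.num.toNat * s.den - s.num.toNat * t.den) • β + (s.num.toNat * t.den) • β
      = (t.num.toNat * s.den) • β := by
    rw [← add_smul, Nat.sub_add_cancel h3.le]
  rw [cl, cl, smul_add, smul_add, smul_smul, smul_smul, smul_smul, smul_smul, ← add_assoc, h5,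
    mul_comm s.num.toNat t.num.toNat]

open Classical in
/-- The breakpoints. -/
noncomputable def TT (w : Fin n → Cl ρ) (β u : Cl ρ) : Finset ℚ :=
  ((All w).filter fun y => pr y u ≠ 0).image fun y => -(pr y β : ℚ) / pr y u

theorem mem_TT {y : Cl ρ} (hy : y ∈ All w) (hu : pr y u ≠ 0) {r : ℚ}
    (hr : val β u y r = 0) : r ∈ TT w β u := by
  classical
  refine Finset.mem_image.2 ⟨y, Finset.mem_filter.2 ⟨hy, hu⟩, ?_⟩
  have h1 : (pr y u : ℚ) ≠ 0 := by exact_mod_cast hu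
  rw [div_eq_iff h1]
  unfold val at hr
  linarith

theorem down {y : Cl ρ} (hy : y ∈ All w) {s t : ℚ} (hst : s < t)
    (hT : ∀ r ∈ TT w β u, ¬ (s < r ∧ r ≤ t)) (h : 0 ≤ val β u y t) : 0 ≤ val β u y s := by
  by_contra hneg
  push Not at hneg
  have h1 : 0 < (pr y u : ℚ) := by
    unfold val at h hneg
    nlinarith
  have h2 : pr y u ≠ 0 := by
    intro h0
    rw [h0, Int.cast_zero] at h1
    exact lt_irrefl _ h1
  have h3 : val β u y (-(pr y β : ℚ) / pr y u) = 0 := by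
    unfold val
    field_simp
    ring
  refine hT _ (mem_TT hy h2 h3) ⟨?_, ?_⟩
  · rw [lt_div_iff₀ h1]
    unfold val at hneg
    linarith
  · rw [div_le_iff₀ h1]
    unfold val at h
    linarith

theorem up {y : Cl ρ} (hy : y ∈ All w) {s t : ℚ} (hst : s < t)
    (hT : ∀ r ∈ TT w β u, ¬ (s ≤ r ∧ r < t)) (h : 0 ≤ val β u y s) : 0 ≤ val β u y t := by
  by_contra hneg
  push Not at hneg
  have h1 : (pr y u : ℚ) < 0 := by
    unfold val at h hneg
    nlinarith
  have h2 : pr y u ≠ 0 := by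
    intro h0
    rw [h0, Int.cast_zero] at h1
    exact lt_irrefl _ h1
  have h3 : val β u y (-(pr y β : ℚ) / pr y u) = 0 := by
    unfold val
    field_simp
    ring
  refine hT _ (mem_TT hy h2 h3) ⟨?_, ?_⟩
  · rw [le_div_iff_of_neg h1]
    unfold val at h
    linarith
  · rw [div_lt_iff_of_neg h1]
    unfold val at hneg
    linarith

theorem convex {y : Cl ρ} {r s t : ℚ} (hr : r ≤ s) (ht : s ≤ t) (h1 : 0 ≤ val β u y r)
    (h2 : 0 ≤ val β u y t) : 0 ≤ val β u y s := by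
  unfold val at *
  rcases le_or_gt 0 (pr y u : ℚ) with h | h
  · nlinarith
  · nlinarith

omit [IsDomain R] in
theorem ss_cl (D : IsDream 𝒜 x w u₀) {t : ℚ} (ht : 0 < t) {p : R →ₐ[ℂ] ℂ} :
    p ∈ SS 𝒜 (cl β u t) ↔ ∀ y ∈ Ys w (supp x p), 0 ≤ val β u y t := by
  rw [ss_iff D]
  exact forall₂_congr fun y _ => pr_cl_nonneg ht

/-- A uniform bound. -/
theorem exists_bound (w : Fin n → Cl ρ) (γ : Cl ρ) : ∃ k : ℕ, ∀ y ∈ All w, |pr y γ| ≤ k := by
  classical
  refine ⟨∑ y ∈ All w, (pr y γ).natAbs, fun y hy => ?_⟩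
  rw [Int.abs_eq_natAbs]
  exact_mod_cast Finset.single_le_sum (f := fun y => (pr y γ).natAbs) (fun i _ => Nat.zero_le _) hy

omit [IsDomain R] in
/-- A class which is trivial where `c` is trivial. -/
theorem exists_twist (D : IsDream 𝒜 x w u₀) {m c δ : Cl ρ} (hsub : SS 𝒜 m ⊆ SS 𝒜 c)
    (h : ∀ y ∈ All w, pr y c = 0 → pr y δ = 0) : ∃ k : ℕ,
      SemiampleF 𝒜 m (δ + k • c) ∧ SemiampleF 𝒜 m (-δ + k • c) := by
  obtain ⟨k, hk⟩ := exists_bound w δ
  refine ⟨k, (sa_iff D).2 fun p hp => (ss_iff D).2 fun y hy => ?_,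
    (sa_iff D).2 fun p hp => (ss_iff D).2 fun y hy => ?_⟩
  · rw [pr_add, pr_nsmul]
    have h1 := hk y (mem_all hy)
    rcases ((ss_iff D).1 (hsub hp) y hy).eq_or_lt with h2 | h2
    · rw [h y (mem_all hy) h2.symm, ← h2, mul_zero, add_zero]
    · have h3 : (k : ℤ) ≤ k * pr y c := le_mul_of_one_le_right (Int.natCast_nonneg _) h2
      have h4 := neg_abs_le (pr y δ)
      linarith
  · rw [pr_add, pr_nsmul, pr_neg]
    have h1 := hk y (mem_all hy)
    rcases ((ss_iff D).1 (hsub hp) y hy).eq_or_lt with h2 | h2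
    · rw [h y (mem_all hy) h2.symm, ← h2, mul_zero, add_zero, neg_zero]
    · have h3 : (k : ℤ) ≤ k * pr y c := le_mul_of_one_le_right (Int.natCast_nonneg _) h2
      have h4 := le_abs_self (pr y δ)
      linarith

omit [IsDomain R] [GradedAlgebra 𝒜] in
theorem cl_inv (hβ : Inv 𝒜 Γ β) (hu : Inv 𝒜 Γ u) (t : ℚ) : Inv 𝒜 Γ (cl β u t) :=
  (hβ.nsmul _).add (hu.nsmul _)

omit [IsDomain R] in
theorem model (D : IsDream 𝒜 x w u₀) (G : Gen 𝒜 Γ w u₀ β u) (hβ : Inv 𝒜 Γ β) {t : ℚ}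
    (ht : 0 < t) (hT : t ∉ TT w β u) (hne : (SS 𝒜 (cl β u t)).Nonempty) :
    IsModel 𝒜 Γ (cl β u t) where
  inv := cl_inv hβ G.inv t
  point := hne
  ample := fun γ hγ => by
    obtain ⟨k, hk, -⟩ := exists_twist D (m := cl β u t) (c := cl β u t) (δ := γ)
      (fun _ hp => hp) (by
        intro y hy h0
        have h1 := pr_cl_zero ht h0
        by_contra hne
        exact hT (mem_TT hy (G.ne y hy ⟨γ, hγ, hne⟩) h1))
    exact ⟨k, hk⟩

omit [IsDomain R] in
theorem relone (D : IsDream 𝒜 x w u₀) (G : Gen 𝒜 Γ w u₀ β u) {m : Cl ρ}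
    {t : ℚ} (ht : 0 < t) (hsub : SS 𝒜 m ⊆ SS 𝒜 (cl β u t)) (γ γ' : Cl ρ) (hγ : Inv 𝒜 Γ γ)
    (hγ' : Inv 𝒜 Γ γ') :
    ∃ a b : ℤ, (a ≠ 0 ∨ b ≠ 0) ∧ ∃ k : ℕ,
      SemiampleF 𝒜 m ((a • γ + b • γ') + k • cl β u t) ∧
      SemiampleF 𝒜 m (-(a • γ + b • γ') + k • cl β u t) := by
  by_cases hex : ∃ y₀ ∈ All w, pr y₀ u ≠ 0 ∧ val β u y₀ t = 0
  · obtain ⟨y₀, hy₀, hu₀, hv₀⟩ := hex
    have hβ₀ : pr y₀ β ≠ 0 := by
      intro h0
      unfold val at hv₀
      rw [h0, Int.cast_zero, zero_add, mul_eq_zero] at hv₀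
      rcases hv₀ with h | h
      · exact ht.ne' h
      · exact hu₀ (by exact_mod_cast h)
    have key : ∀ δ, Inv 𝒜 Γ δ → pr y₀ δ = 0 → ∀ y ∈ All w, pr y (cl β u t) = 0 →
        pr y δ = 0 := by
      intro δ hδ h0 y hy hyc
      have h1 := pr_cl_zero ht hyc
      have h2 : pr y₀ β * pr y u = pr y β * pr y₀ u := by
        have h3 : (pr y₀ β : ℚ) * pr y u = pr y β * pr y₀ u := by
          unfold val at h1 hv₀
          have h4 : (pr y₀ β : ℚ) = -(t * pr y₀ u) := by linarith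
          have h5 : (pr y β : ℚ) = -(t * pr y u) := by linarith
          rw [h4, h5]
          ring
        exact_mod_cast h3
      have h3 := G.det y₀ hy₀ y hy h2 δ hδ
      rw [h0, mul_zero] at h3
      exact (mul_eq_zero.1 h3).resolve_left hβ₀
    by_cases h0 : pr y₀ γ = 0
    · refine ⟨1, 0, Or.inl one_ne_zero, ?_⟩
      rw [one_smul, zero_smul, add_zero]
      exact exists_twist D hsub (key γ hγ h0)
    · refine ⟨pr y₀ γ', -pr y₀ γ, Or.inr (neg_ne_zero.2 h0), exists_twist D hsub (key _ ?_ ?_)⟩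
      · exact (invW 𝒜 Γ).add_mem ((invW 𝒜 Γ).zsmul_mem hγ _) ((invW 𝒜 Γ).zsmul_mem hγ' _)
      · rw [pr_add, pr_zsmul, pr_zsmul]
        ring
  · push Not at hex
    refine ⟨1, 0, Or.inl one_ne_zero, ?_⟩
    rw [one_smul, zero_smul, add_zero]
    refine exists_twist D hsub fun y hy hyc => ?_
    by_contra hne
    exact hex y hy (G.ne y hy ⟨γ, hγ, hne⟩) (pr_cl_zero ht hyc)

/-! ### Points -/

omit [GradedAlgebra 𝒜] [IsDomain R] in
theorem finType (D : IsDream 𝒜 x w u₀) : Algebra.FiniteType ℂ R := by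
  classical
  refine ⟨⟨Finset.univ.image x, ?_⟩⟩
  rw [← D.gen]
  congr 1
  simp

omit [GradedAlgebra 𝒜] in
/-- A semistable point where a given nonzero function does not vanish. -/
theorem exists_ss (D : IsDream 𝒜 x w u₀) {m : Cl ρ} (hm : (SS 𝒜 m).Nonempty) {r : R}
    (hr : r ≠ 0) : ∃ p ∈ SS 𝒜 m, p r ≠ 0 := by
  obtain ⟨p₀, k, hk, s, hs, hs0⟩ := hm
  have hs' : s ≠ 0 := by
    rintro rfl
    exact hs0 (map_zero _)
  obtain ⟨p, hp⟩ := exists_point (finType D) (mul_ne_zero hr hs')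
  rw [map_mul] at hp
  exact ⟨p, ⟨k, hk, s, hs, right_ne_zero_of_mul hp⟩, left_ne_zero_of_mul hp⟩

omit [GradedAlgebra 𝒜] in
/-- A point on the divisor of `r` which is semistable for `m` and for `u₀`. -/
theorem exists_div (D : IsDream 𝒜 x w u₀) {m : Cl ρ} {r : R} (hr : r ≠ 0)
    (hm : ∃ p ∈ SS 𝒜 m, p r = 0) : ∃ p ∈ SS 𝒜 m, p ∈ SS 𝒜 u₀ ∧ p r = 0 := by
  obtain ⟨p₁, ⟨k, hk, s, hs, hs0⟩, h1⟩ := hm
  have hft := finType D
  have hno : IsNoetherianRing R := Algebra.FiniteType.isNoetherianRing ℂ R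
  have hker : (RingHom.ker p₁).IsPrime := RingHom.ker_isPrime _
  have hle : Ideal.span {r} ≤ RingHom.ker p₁ := by
    rw [Ideal.span_le, Set.singleton_subset_iff]
    exact h1
  obtain ⟨I, hImin, hIle⟩ := Ideal.exists_minimalPrimes_le hle
  have hI : I.IsPrime := hImin.1.1
  have hrI : r ∈ I := hImin.1.2 (Ideal.mem_span_singleton_self r)
  have hheight : I.height = 1 := by
    refine le_antisymm ?_ ?_
    · exact Ideal.height_le_one_of_isPrincipal_of_mem_minimalPrimes (Ideal.span {r}) I hImin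
    · rw [ENat.one_le_iff_ne_zero]
      intro h0
      rw [Ideal.height_eq_zero_iff_eq_bot] at h0
      rw [h0, Ideal.mem_bot] at hrI
      exact hr hrI
  obtain ⟨p₂, ⟨k', hk', s', hs', hs0'⟩, h2⟩ := D.codim I hI hheight
  have : IsDomain (R ⧸ I) := (Ideal.Quotient.isDomain_iff_prime I).2 hI
  have hq : ∀ (p : R →ₐ[ℂ] ℂ) (r : R), (∀ a ∈ I, p a = 0) → p r ≠ 0 →
      Ideal.Quotient.mkₐ ℂ I r ≠ 0 := by
    intro p r hp hr h0
    exact hr (hp r (Ideal.Quotient.eq_zero_iff_mem.1 h0))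
  have hft' : Algebra.FiniteType ℂ (R ⧸ I) :=
    Algebra.FiniteType.of_surjective (Ideal.Quotient.mkₐ ℂ I)
      (Ideal.Quotient.mkₐ_surjective ℂ I)
  obtain ⟨q, hq0⟩ := exists_point hft'
    (mul_ne_zero (hq p₁ s (fun a ha => hIle ha) hs0) (hq p₂ s' h2 hs0'))
  rw [map_mul] at hq0
  refine ⟨q.comp (Ideal.Quotient.mkₐ ℂ I), ⟨k, hk, s, hs, left_ne_zero_of_mul hq0⟩,
    ⟨k', hk', s', hs', right_ne_zero_of_mul hq0⟩, ?_⟩
  change q (Ideal.Quotient.mkₐ ℂ I r) = 0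
  have h3 : Ideal.Quotient.mkₐ ℂ I r = 0 := Ideal.Quotient.eq_zero_iff_mem.2 hrI
  rw [h3, map_zero]

/-! ### The steps -/

section Steps

variable {s t t₁ : ℚ}

omit [IsDomain R] in
theorem contraction (D : IsDream 𝒜 x w u₀) (G : Gen 𝒜 Γ w u₀ β u) (hβ : Inv 𝒜 Γ β)
    (ht₁ : 0 < t₁) (h1 : t₁ < t) (hT : ∀ r ∈ TT w β u, ¬ (t₁ < r ∧ r ≤ t))
    (hne : (SS 𝒜 (cl β u t)).Nonempty) : IsContraction 𝒜 Γ β (cl β u t) (cl β u t₁) := by
  have ht : 0 < t := ht₁.trans h1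
  have hsub : SS 𝒜 (cl β u t) ⊆ SS 𝒜 (cl β u t₁) := by
    intro p hp
    rw [ss_cl D ht] at hp
    rw [ss_cl D ht₁]
    exact fun y hy => down (mem_all hy) h1 hT (hp y hy)
  refine ⟨model D G hβ ht (fun h => hT t h ⟨h1, le_refl _⟩) hne, cl_inv hβ G.inv _, hsub,
    comb ht₁ h1, fun γ γ' hγ hγ' => relone D G ht₁ hsub γ γ' hγ hγ'⟩

theorem completion (D : IsDream 𝒜 x w u₀) (G : Gen 𝒜 Γ w u₀ β u) (hβ : Inv 𝒜 Γ β)
    (hs : 0 < s) (h1 : s < t₁) (h2 : t₁ < t) (hT : ∀ r ∈ TT w β u, ¬ (s ≤ r ∧ r < t₁))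
    (hne : (SS 𝒜 (cl β u s)).Nonempty) :
    IsCompletion 𝒜 Γ β (cl β u t) (cl β u t₁) (cl β u s) := by
  have ht₁ : 0 < t₁ := hs.trans h1
  have ht : 0 < t := ht₁.trans h2
  refine ⟨model D G hβ hs (fun h => hT s h ⟨le_refl _, h1⟩) hne, ?_, comb hs h1, ?_⟩
  · intro p hp
    rw [ss_cl D hs] at hp
    rw [ss_cl D ht₁]
    exact fun y hy => up (mem_all hy) h1 hT (hp y hy)
  · intro γ r _ hr0 hr
    obtain ⟨p, hp1, hp2, hpi⟩ := exists_div D hr0 hr
    refine ⟨p, ?_, hpi⟩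
    rw [ss_cl D hs] at hp1
    rw [← G.ss, ss_iff D] at hp2
    rw [ss_cl D ht]
    intro y hy
    have h4 := hp1 y hy
    have h5 : (0 : ℚ) ≤ pr y u := by exact_mod_cast hp2 y hy
    unfold val at h4 ⊢
    nlinarith

theorem fibre (D : IsDream 𝒜 x w u₀) (G : Gen 𝒜 Γ w u₀ β u) (hβ : Inv 𝒜 Γ β)
    (hs : 0 < s) (h1 : s < t₁) (h2 : t₁ < t) (hT : ∀ r ∈ TT w β u, ¬ (s ≤ r ∧ r < t₁))
    (hT' : ∀ r ∈ TT w β u, ¬ (t₁ < r ∧ r ≤ t)) (hne : (SS 𝒜 (cl β u t)).Nonempty)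
    (hem : ¬ (SS 𝒜 (cl β u s)).Nonempty) : MoriFibre 𝒜 Γ β (SS 𝒜 (cl β u t)) := by
  have ht₁ : 0 < t₁ := hs.trans h1
  have ht : 0 < t := ht₁.trans h2
  refine ⟨_, _, rfl, contraction D G hβ ht₁ h2 hT' hne, fun a b ha r hr => ?_⟩
  by_contra hr0
  apply hem
  obtain ⟨p, hp, hpr⟩ := exists_ss D hne hr0
  refine ⟨p, (ss_cl D hs).2 fun y hy => ?_⟩
  have h3 : p ∈ SS 𝒜 (a • β + b • cl β u t₁) := ⟨1, one_pos, r, by rwa [one_smul], hpr⟩
  have h4 := (ss_iff D).1 h3 y hy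
  rw [pr_add, pr_nsmul, pr_nsmul] at h4
  have h5 : (0 : ℚ) ≤ a * pr y β + b * (t₁.den * val β u y t₁) := by
    rw [← pr_cl ht₁]
    exact_mod_cast h4
  have h6 := (ss_cl D ht).1 hp y hy
  have ha' : (0 : ℚ) < a := by exact_mod_cast ha
  have hb' : (0 : ℚ) ≤ b * t₁.den := by positivity
  have hab : (0 : ℚ) < a + b * t₁.den := by linarith
  let q : ℚ := b * t₁.den * t₁ / (a + b * t₁.den)
  have hq : 0 ≤ val β u y q := by
    have h7 : (a + b * t₁.den : ℚ) * val β u y q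
        = a * pr y β + b * (t₁.den * val β u y t₁) := by
      simp only [q, val]
      field_simp
      ring
    rw [← h7] at h5
    exact nonneg_of_mul_nonneg_right h5 hab
  have hq1 : q < t₁ := by
    simp only [q]
    rw [div_lt_iff₀ hab]
    nlinarith
  rcases le_or_gt q s with h | h
  · exact convex h (h1.trans h2).le hq h6
  · exact down (mem_all hy) h (fun r hr hrq => hT r hr ⟨hrq.1.le, lt_of_le_of_lt hrq.2 hq1⟩) hq

end Steps

/-! ### The program -/

theorem run (D : IsDream 𝒜 x w u₀) (G : Gen 𝒜 Γ w u₀ β u) (hβ : Inv 𝒜 Γ β) :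
    ∀ (N : ℕ) (t : ℚ), 0 < t → t ∉ TT w β u → (SS 𝒜 (cl β u t)).Nonempty →
      ((TT w β u).filter fun r => 0 < r ∧ r < t).card ≤ N →
      ∃ U, Relation.ReflTransGen (Step 𝒜 Γ β) (SS 𝒜 (cl β u t)) U ∧
        (MoriFibre 𝒜 Γ β U ∨ ∃ m, U = SS 𝒜 m ∧ IsModel 𝒜 Γ m ∧ SemiampleF 𝒜 m β) := by
  classical
  intro N
  induction N with
  | zero =>
    intro t ht hT hne hN
    have h1 := Finset.card_eq_zero.1 (Nat.le_zero.1 hN)
    refine ⟨_, Relation.ReflTransGen.refl, Or.inr ⟨_, rfl, model D G hβ ht hT hne, ?_⟩⟩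
    rw [sa_iff D]
    intro p hp
    rw [ss_iff D]
    intro y hy
    have h2 := (ss_cl D ht).1 hp y hy
    by_contra hneg
    push Not at hneg
    have h3 : (pr y β : ℚ) < 0 := by exact_mod_cast hneg
    have h4 : (0 : ℚ) < pr y u := by
      unfold val at h2
      nlinarith
    have h5 : pr y u ≠ 0 := by
      intro h0
      rw [h0, Int.cast_zero] at h4
      exact lt_irrefl _ h4
    have h6 : val β u y (-(pr y β : ℚ) / pr y u) = 0 := by
      unfold val
      field_simp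
      ring
    have h7 := mem_TT (mem_all hy) h5 h6
    have h8 : -(pr y β : ℚ) / pr y u ≤ t := by
      rw [div_le_iff₀ h4]
      unfold val at h2
      linarith
    have h9 : -(pr y β : ℚ) / pr y u ≠ t := by
      rintro h
      rw [h] at h7
      exact hT h7
    have h10 : -(pr y β : ℚ) / pr y u ∈ (TT w β u).filter fun r => 0 < r ∧ r < t :=
      Finset.mem_filter.2 ⟨h7, div_pos (by linarith) h4, lt_of_le_of_ne h8 h9⟩
    rw [h1] at h10
    exact absurd h10 (Finset.notMem_empty _)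
  | succ N ih =>
    intro t ht hT hne hN
    by_cases h0 : ((TT w β u).filter fun r => 0 < r ∧ r < t) = ∅
    · -- no breakpoint: as above
      refine ⟨_, Relation.ReflTransGen.refl, Or.inr ⟨_, rfl, model D G hβ ht hT hne, ?_⟩⟩
      rw [sa_iff D]
      intro p hp
      rw [ss_iff D]
      intro y hy
      have h2 := (ss_cl D ht).1 hp y hy
      by_contra hneg
      push Not at hneg
      have h3 : (pr y β : ℚ) < 0 := by exact_mod_cast hneg
      have h4 : (0 : ℚ) < pr y u := by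
        unfold val at h2
        nlinarith
      have h5 : pr y u ≠ 0 := by
        intro h0
        rw [h0, Int.cast_zero] at h4
        exact lt_irrefl _ h4
      have h6 : val β u y (-(pr y β : ℚ) / pr y u) = 0 := by
        unfold val
        field_simp
        ring
      have h7 := mem_TT (mem_all hy) h5 h6
      have h8 : -(pr y β : ℚ) / pr y u ≤ t := by
        rw [div_le_iff₀ h4]
        unfold val at h2
        linarith
      have h9 : -(pr y β : ℚ) / pr y u ≠ t := by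
        rintro h
        rw [h] at h7
        exact hT h7
      have h10 : -(pr y β : ℚ) / pr y u ∈ (TT w β u).filter fun r => 0 < r ∧ r < t :=
        Finset.mem_filter.2 ⟨h7, div_pos (by linarith) h4, lt_of_le_of_ne h8 h9⟩
      rw [h0] at h10
      exact absurd h10 (Finset.notMem_empty _)
    · have hne' := Finset.nonempty_iff_ne_empty.2 h0
      obtain ⟨t₁, ht₁m, hmax⟩ := Finset.exists_max_image _ id hne'
      simp only [id] at hmax
      obtain ⟨ht₁T, ht₁, h1⟩ := Finset.mem_filter.1 ht₁m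
      have hT' : ∀ r ∈ TT w β u, ¬ (t₁ < r ∧ r ≤ t) := by
        rintro r hr ⟨h2, h3⟩
        have h4 : r ≠ t := by
          rintro rfl
          exact hT hr
        have h5 := hmax r (Finset.mem_filter.2 ⟨hr, ht₁.trans h2, lt_of_le_of_ne h3 h4⟩)
        linarith
      -- a point just below `t₁`
      obtain ⟨s, hs, hst, hsT⟩ : ∃ s : ℚ, 0 < s ∧ s < t₁ ∧
          ∀ r ∈ TT w β u, ¬ (s ≤ r ∧ r < t₁) := by
        let B := insert 0 ((TT w β u).filter fun r => r < t₁)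
        obtain ⟨b, hb, hbmax⟩ := Finset.exists_max_image B id ⟨0, Finset.mem_insert_self _ _⟩
        simp only [id] at hbmax
        have hb1 : b < t₁ := by
          rcases Finset.mem_insert.1 hb with rfl | hb
          · exact ht₁
          · exact (Finset.mem_filter.1 hb).2
        have hb0 : 0 ≤ b := hbmax 0 (Finset.mem_insert_self _ _)
        refine ⟨(b + t₁) / 2, by linarith, by linarith, ?_⟩
        rintro r hr ⟨h2, h3⟩
        have h4 := hbmax r (Finset.mem_insert_of_mem (Finset.mem_filter.2 ⟨hr, h3⟩))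
        linarith
      by_cases hsne : (SS 𝒜 (cl β u s)).Nonempty
      · obtain ⟨U, hU, hfin⟩ := ih s hs (fun h => hsT s h ⟨le_refl _, hst⟩) hsne (by
          have h2 : ((TT w β u).filter fun r => 0 < r ∧ r < s) ⊆
              ((TT w β u).filter fun r => 0 < r ∧ r < t).erase t₁ := by
            intro r hr
            obtain ⟨h3, h4, h5⟩ := Finset.mem_filter.1 hr
            refine Finset.mem_erase.2 ⟨?_, Finset.mem_filter.2
              ⟨h3, h4, h5.trans (hst.trans h1)⟩⟩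
            rintro rfl
            exact lt_irrefl _ (h5.trans hst)
          have h3 := Finset.card_le_card h2
          rw [Finset.card_erase_of_mem ht₁m] at h3
          omega)
        refine ⟨U, ?_, hfin⟩
        by_cases heq : SS 𝒜 (cl β u t) = SS 𝒜 (cl β u s)
        · rw [heq]
          exact hU
        · exact Relation.ReflTransGen.head ⟨heq, _, _, _, rfl, rfl,
            contraction D G hβ ht₁ h1 hT' hne, completion D G hβ hs hst h1 hsT hsne⟩ hU
      · exact ⟨_, Relation.ReflTransGen.refl, Or.inl (fibre D G hβ hs hst h1 hsT hT' hne hsne)⟩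

/-- The minimal model program for a class `β`. -/
theorem mmp (D : IsDream 𝒜 x w u₀) (hu₀ : Inv 𝒜 Γ u₀) (hβ : Inv 𝒜 Γ β) :
    ∃ U, Relation.ReflTransGen (Step 𝒜 Γ β) (SS 𝒜 u₀) U ∧
      (MoriFibre 𝒜 Γ β U ∨ ∃ m, U = SS 𝒜 m ∧ IsModel 𝒜 Γ m ∧ SemiampleF 𝒜 m β) := by
  classical
  obtain ⟨u, G⟩ := exists_gen (Γ := Γ) D hu₀ β
  let B := insert 0 (TT w β u)
  obtain ⟨b, hb, hbmax⟩ := Finset.exists_max_image B id ⟨0, Finset.mem_insert_self _ _⟩
  simp only [id] at hbmax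
  have hb0 : 0 ≤ b := hbmax 0 (Finset.mem_insert_self _ _)
  have ht : (0 : ℚ) < b + 1 := by linarith
  have hlt : ∀ r ∈ TT w β u, r < b + 1 := by
    intro r hr
    have := hbmax r (Finset.mem_insert_of_mem hr)
    linarith
  have hT : b + 1 ∉ TT w β u := fun h => lt_irrefl _ (hlt _ h)
  have hss : SS 𝒜 (cl β u (b + 1)) = SS 𝒜 u₀ := by
    rw [← G.ss]
    ext p
    rw [ss_cl D ht, ss_iff D]
    refine forall₂_congr fun y hy => ?_
    by_cases hyu : pr y u = 0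
    · have h1 : pr y β = 0 := by
        by_contra hne
        exact G.ne y (mem_all hy) ⟨β, hβ, hne⟩ hyu
      unfold val
      rw [h1, hyu]
      simp
    · have h6 : val β u y (-(pr y β : ℚ) / pr y u) = 0 := by
        have h5 : (pr y u : ℚ) ≠ 0 := by exact_mod_cast hyu
        unfold val
        field_simp
        ring
      have h7 := hlt _ (mem_TT (mem_all hy) hyu h6)
      rcases lt_or_gt_of_ne hyu with h | h
      · have h8 : (pr y u : ℚ) < 0 := by exact_mod_cast h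
        rw [div_lt_iff_of_neg h8] at h7
        constructor
        · intro h9
          unfold val at h9
          linarith
        · intro h9
          omega
      · have h8 : (0 : ℚ) < pr y u := by exact_mod_cast h
        rw [div_lt_iff₀ h8] at h7
        constructor
        · intro _
          exact h.le
        · intro _
          unfold val
          linarith
  have hne : (SS 𝒜 (cl β u (b + 1))).Nonempty := by
    rw [hss]
    exact D.point
  obtain ⟨U, hU, hfin⟩ := run D G hβ _ (b + 1) ht hT hne le_rfl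
  rw [hss] at hU
  exact ⟨U, hU, hfin⟩

end Pool.Agent.D0H8.MM
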