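import Pool.Agent.D0H8.MM.Main

/-!
# Mori dream spaces
-/

set_option autoImplicit false

namespace Pool.Agent.D0H8.MM

open Pool.Agent.X324.CF Pool.Agent.D0H8.PQ

variable {R : Type*} [CommRing R] [IsDomain R] [Algebra ℂ R]
  {ρ n : ℕ} {𝒜 : Cl ρ → Submodule ℂ R} {x : Fin n → R} {w : Fin n → Cl ρ} {u : Cl ρ}

theorem dream_of_mds [GradedAlgebra 𝒜] (D : IsMoriDream 𝒜 x w u) : IsDream 𝒜 x w u where
  point := D.point
  const := D.const
  mem := D.mem
  gen := D.gen
  ample := D.ample
  codim := by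
    intro P hP hheight
    have hufd := D.ufd
    have hP0 : P ≠ ⊥ := by
      rw [Ne, ← Ideal.height_eq_zero_iff_eq_bot, hheight]
      exact one_ne_zero
    obtain ⟨q, hqP, hq⟩ := hP.exists_mem_prime_of_ne_bot hP0
    have hQ : (Ideal.span {q}).IsPrime := (Ideal.span_singleton_prime hq.ne_zero).2 hq
    have hle : Ideal.span {q} ≤ P := by
      rw [Ideal.span_le, Set.singleton_subset_iff]
      exact hqP
    have heq : Ideal.span {q} = P := by
      by_contra hne
      have hlt : Ideal.span {q} < P := lt_of_le_of_ne hle hne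
      have h1 : Ideal.span {q} ≠ ⊥ := by
        rw [Ne, Ideal.span_singleton_eq_bot]
        exact hq.ne_zero
      have hft : Algebra.FiniteType ℂ R := by
        classical
        refine ⟨⟨Finset.univ.image x, ?_⟩⟩
        rw [← D.gen]
        congr 1
        simp
      have hno : IsNoetherianRing R := Algebra.FiniteType.isNoetherianRing ℂ R
      have h2 : (Ideal.span {q}).height < P.height := Ideal.height_strict_mono_of_isPrime hlt
      rw [hheight, Order.lt_one_iff, Ideal.height_eq_zero_iff_eq_bot] at h2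
      exact h1 h2
    obtain ⟨p₀, m, hm, r₀, hr₀, hr₀0⟩ := D.point
    obtain ⟨c, hc, -⟩ := exists_mon D.mem D.gen hr₀ hr₀0
    have hmon : mon x c ∈ 𝒜 (m • u) := by
      rw [← hc]
      exact mon_mem D.mem c
    by_cases hdvd : q ∣ mon x c
    · obtain ⟨i, -, hi⟩ := assoc_of_dvd_mon D.prime hq hdvd
      obtain ⟨p, hp, hpi⟩ := D.nonempty i
      refine ⟨p, hp, fun r hr => ?_⟩
      rw [← heq, Ideal.mem_span_singleton] at hr
      obtain ⟨a, rfl⟩ := hr
      obtain ⟨v, hv⟩ := hi.symm
      rw [← hv, map_mul, map_mul, hpi, zero_mul, zero_mul]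
    · have hdom : IsDomain (R ⧸ Ideal.span {q}) := (Ideal.Quotient.isDomain_iff_prime _).2 hQ
      have hft : Algebra.FiniteType ℂ R := by
        classical
        refine ⟨⟨Finset.univ.image x, ?_⟩⟩
        rw [← D.gen]
        congr 1
        simp
      have hft' : Algebra.FiniteType ℂ (R ⧸ Ideal.span {q}) :=
        Algebra.FiniteType.of_surjective (Ideal.Quotient.mkₐ ℂ (Ideal.span {q}))
          (Ideal.Quotient.mkₐ_surjective ℂ _)
      have hne : Ideal.Quotient.mkₐ ℂ (Ideal.span {q}) (mon x c) ≠ 0 := by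
        intro h0
        exact hdvd (Ideal.mem_span_singleton.1 (Ideal.Quotient.eq_zero_iff_mem.1 h0))
      obtain ⟨p, hp⟩ := exists_point hft' hne
      refine ⟨p.comp (Ideal.Quotient.mkₐ ℂ (Ideal.span {q})), ⟨m, hm, _, hmon, hp⟩,
        fun r hr => ?_⟩
      change p (Ideal.Quotient.mkₐ ℂ (Ideal.span {q}) r) = 0
      have h1 : Ideal.Quotient.mkₐ ℂ (Ideal.span {q}) r = 0 := by
        rw [heq]
        exact Ideal.Quotient.eq_zero_iff_mem.2 hr
      rw [h1, map_zero]

end Pool.Agent.D0H8.MM
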