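import Pool.Agent.D0H8.MM.Fib
import Pool.Agent.D0H8.PQ.Chi
import Pool.Agent.X324.CF.Aut2

/-!
# The fibration if the Chern form is not semidefinite
-/

set_option autoImplicit false

namespace Pool.Agent.D0H8.MM

open Finset
open Pool.Agent.W594.SYZ2 Pool.Agent.W594.SYZ2.TQ Pool.Agent.TH735.AQ
open Pool.Agent.Y167 (MirrorFixed)

variable {V : Type*} [NormedAddCommGroup V] [NormedSpace ℂ V] [FiniteDimensional ℂ V]
  {Γ Γ₀ : Subgroup (V ≃ᵃ[ℂ] V)} {H h : V → V → ℂ}

/-- An invariant positive definite hermitian form. -/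
theorem exists_inv_pos (hΓ : IsTorusQuotient Γ) : ∃ h : V → V → ℂ, IsHermitian h ∧
    IsPositiveForm h ∧ ∀ γ ∈ Γ, ∀ v w, h (γ.linear v) (γ.linear w) = h v w := by
  classical
  have := finite_Lin hΓ
  have : Fintype (Lin Γ) := Fintype.ofFinite _
  let b := Module.finBasis ℂ V
  refine ⟨fun v w => ∑ g : Lin Γ, ∑ i, b.repr (g.1 v) i * starRingEnd ℂ (b.repr (g.1 w) i),
    ⟨?_, ?_, ?_⟩, ?_, ?_⟩
  · intro u v w
    rw [← Finset.sum_add_distrib]
    refine Finset.sum_congr rfl fun g _ => ?_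
    rw [← Finset.sum_add_distrib]
    refine Finset.sum_congr rfl fun i _ => ?_
    rw [map_add, map_add, Finsupp.add_apply, add_mul]
  · intro a v w
    rw [Finset.mul_sum]
    refine Finset.sum_congr rfl fun g _ => ?_
    rw [Finset.mul_sum]
    refine Finset.sum_congr rfl fun i _ => ?_
    rw [map_smul, map_smul, Finsupp.smul_apply, smul_eq_mul, mul_assoc]
  · intro v w
    rw [map_sum]
    refine Finset.sum_congr rfl fun g _ => ?_
    rw [map_sum]
    refine Finset.sum_congr rfl fun i _ => ?_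
    rw [map_mul, Complex.conj_conj, mul_comm]
  · intro v hv
    rw [Complex.re_sum]
    have h1 : ∀ g : Lin Γ, (∑ i, b.repr (g.1 v) i * starRingEnd ℂ (b.repr (g.1 v) i)).re
        = ∑ i, ‖b.repr (g.1 v) i‖ ^ 2 := by
      intro g
      rw [Complex.re_sum]
      refine Finset.sum_congr rfl fun i _ => ?_
      rw [Complex.mul_conj, Complex.normSq_eq_norm_sq]
      exact Complex.ofReal_re _
    simp only [h1]
    refine Finset.sum_pos' (fun g _ => Finset.sum_nonneg fun i _ => sq_nonneg _)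
      ⟨1, Finset.mem_univ _, ?_⟩
    have h2 : ∃ i, b.repr v i ≠ 0 := by
      by_contra hcon
      push Not at hcon
      apply hv
      have h3 : b.repr v = 0 := Finsupp.ext hcon
      rwa [LinearEquiv.map_eq_zero_iff] at h3
    obtain ⟨i, hi⟩ := h2
    refine Finset.sum_pos' (fun i _ => sq_nonneg _) ⟨i, Finset.mem_univ _, ?_⟩
    have h3 : 0 < ‖b.repr v i‖ := norm_pos_iff.2 hi
    exact pow_pos h3 2
  · intro γ hγ v w
    let g₀ : Lin Γ := ⟨γ.linear, γ, hγ, rfl⟩
    exact Fintype.sum_equiv (Equiv.mulRight g₀) _ _ fun g => rfl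

/-- The minimum of the quotient of two hermitian forms. -/
theorem exists_min (hH : IsHermitian H) (hh : IsHermitian h) (hp : IsPositiveForm h)
    (hneg : ∃ v, (H v v).re < 0) : ∃ τ : ℝ, τ < 0 ∧ (∀ v, τ * (h v v).re ≤ (H v v).re) ∧
      ∃ v, v ≠ 0 ∧ (H v v).re = τ * (h v v).re := by
  have : ProperSpace V := FiniteDimensional.proper ℂ V
  obtain ⟨v₀, hv₀⟩ := hneg
  have hv₀0 : v₀ ≠ 0 := by
    rintro rfl
    rw [h_zero_left hH, Complex.zero_re] at hv₀
    exact lt_irrefl _ hv₀
  have hc : IsCompact (Metric.sphere (0 : V) 1) := isCompact_sphere _ _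
  have hne0 : ∀ v ∈ Metric.sphere (0 : V) 1, v ≠ 0 := by
    rintro v hv rfl
    rw [mem_sphere_zero_iff_norm, norm_zero] at hv
    exact zero_ne_one hv
  have hcont : ContinuousOn (fun v => (H v v).re / (h v v).re) (Metric.sphere (0 : V) 1) :=
    (PQ.continuous_form hH).continuousOn.div (PQ.continuous_form hh).continuousOn
      fun v hv => (hp v (hne0 v hv)).ne'
  have hmem : ∀ v : V, v ≠ 0 → ((‖v‖⁻¹ : ℝ) : ℂ) • v ∈ Metric.sphere (0 : V) 1 := by
    intro v hv
    rw [mem_sphere_zero_iff_norm, norm_smul, Complex.norm_real, norm_inv, norm_norm]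
    exact inv_mul_cancel₀ (norm_ne_zero_iff.2 hv)
  have hscale : ∀ v : V, v ≠ 0 →
      (H (((‖v‖⁻¹ : ℝ) : ℂ) • v) (((‖v‖⁻¹ : ℝ) : ℂ) • v)).re /
        (h (((‖v‖⁻¹ : ℝ) : ℂ) • v) (((‖v‖⁻¹ : ℝ) : ℂ) • v)).re
      = (H v v).re / (h v v).re := by
    intro v hv
    rw [h_diag_smul hH, h_diag_smul hh]
    have h1 : ‖((‖v‖⁻¹ : ℝ) : ℂ)‖ ^ 2 ≠ 0 := by
      rw [Complex.norm_real, norm_inv, norm_norm]
      exact pow_ne_zero 2 (inv_ne_zero (norm_ne_zero_iff.2 hv))
    exact mul_div_mul_left _ _ h1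
  obtain ⟨v₁, hv₁, hmin⟩ := hc.exists_isMinOn ⟨_, hmem v₀ hv₀0⟩ hcont
  have key : ∀ v : V, v ≠ 0 → (H v₁ v₁).re / (h v₁ v₁).re ≤ (H v v).re / (h v v).re := by
    intro v hv
    rw [← hscale v hv]
    exact hmin (hmem v hv)
  refine ⟨(H v₁ v₁).re / (h v₁ v₁).re, ?_, ?_, v₁, hne0 v₁ hv₁, ?_⟩
  · exact (key v₀ hv₀0).trans_lt (div_neg_of_neg_of_pos hv₀ (hp v₀ hv₀0))
  · intro v
    rcases eq_or_ne v 0 with rfl | hv
    · rw [h_zero_left hH, h_zero_left hh, Complex.zero_re, mul_zero]
    · have h1 := key v hv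
      rwa [le_div_iff₀ (hp v hv)] at h1
  · rw [div_mul_cancel₀ _ (hp v₁ (hne0 v₁ hv₁)).ne']

/-- The form `H - τ h`. -/
theorem herm_sub (hH : IsHermitian H) (hh : IsHermitian h) (τ : ℝ) :
    IsHermitian fun v w => H v w - (τ : ℂ) * h v w where
  add_left := fun u v w => by rw [hH.add_left, hh.add_left]; ring
  smul_left := fun a v w => by rw [hH.smul_left, hh.smul_left]; ring
  symm := fun v w => by
    rw [hH.symm v w, hh.symm v w, map_sub, map_mul, Complex.conj_ofReal]

/-- The negative directions of an invariant form which is nonnegative on the vectors parallel to all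
mirrors of a subgroup give a fibration. -/
theorem neg_fibration (hΓ : IsTorusQuotient Γ) (hΓ₀ : Γ₀ ≤ Γ) (hH : IsHermitian H)
    (hinv : ∀ γ ∈ Γ, ∀ v w, H (γ.linear v) (γ.linear w) = H v w)
    (hmir : ∀ w, MirrorFixed Γ₀ w → 0 ≤ (H w w).re) (hneg : ¬ IsNefForm H) :
    ∃ (k : ℕ) (Δ : Subgroup ((Fin k → ℂ) ≃ᵃ[ℂ] (Fin k → ℂ))) (π : V →ₗ[ℂ] (Fin k → ℂ)),
      IsFibration Γ Δ π ∧ (∃ v, v ≠ 0 ∧ π v = 0) ∧ ∀ v, v ≠ 0 → π v = 0 → (H v v).re < 0 := by
  classical
  have hfin := finite_Lin hΓ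
  obtain ⟨h, hh, hp, hhinv⟩ := exists_inv_pos hΓ
  have hneg' : ∃ v, (H v v).re < 0 := by
    unfold IsNefForm at hneg
    push Not at hneg
    exact hneg
  obtain ⟨τ, hτ, hmin, v₁, hv₁, hv₁e⟩ := exists_min hH hh hp hneg'
  have hH' := herm_sub hH hh τ
  have hre : ∀ v, (H v v - (τ : ℂ) * h v v).re = (H v v).re - τ * (h v v).re := by
    intro v
    rw [Complex.sub_re, Complex.re_ofReal_mul]
  have hnef : IsNefForm fun v w => H v w - (τ : ℂ) * h v w := by
    intro v
    change 0 ≤ (H v v - (τ : ℂ) * h v v).re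
    rw [hre]
    linarith [hmin v]
  let K := ker hH'
  have hK0 : ∀ v ∈ K, (H v v).re = τ * (h v v).re := by
    intro v hv
    have h1 : H v v - (τ : ℂ) * h v v = 0 := hv v
    have h2 := hre v
    rw [h1, Complex.zero_re] at h2
    linarith
  have hinv' : ∀ γ ∈ Γ, ∀ v w, H (γ.linear v) (γ.linear w) - (τ : ℂ) * h (γ.linear v) (γ.linear w)
      = H v w - (τ : ℂ) * h v w := by
    intro γ hγ v w
    rw [hinv γ hγ, hhinv γ hγ]
  have hst : ∀ γ ∈ Γ, ∀ v ∈ K, γ.linear v ∈ K := by
    intro γ hγ v hv w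
    have h1 := hinv' γ hγ v (γ.linear.symm w)
    rw [LinearEquiv.apply_symm_apply] at h1
    change H (γ.linear v) w - (τ : ℂ) * h (γ.linear v) w = 0
    rw [h1]
    exact hv _
  -- the subgroup of the linear parts which move all vectors by elements of `K`
  let G₁ : Subgroup (V ≃ₗ[ℂ] V) :=
    { carrier := {g | g ∈ Lin Γ ∧ ∀ v, v - g v ∈ K}
      one_mem' := ⟨(Lin Γ).one_mem, fun v => by
        change v - v ∈ K
        rw [sub_self]
        exact K.zero_mem⟩
      mul_mem' := by
        rintro g g' ⟨h1, h2⟩ ⟨h3, h4⟩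
        refine ⟨(Lin Γ).mul_mem h1 h3, fun v => ?_⟩
        have h5 := K.add_mem (h4 v) (h2 (g' v))
        have h6 : v - g' v + (g' v - g (g' v)) = v - (g * g') v := by
          change v - g' v + (g' v - g (g' v)) = v - g (g' v)
          abel
        rwa [h6] at h5
      inv_mem' := by
        rintro g ⟨h1, h2⟩
        refine ⟨(Lin Γ).inv_mem h1, fun v => ?_⟩
        have h3 := K.neg_mem (h2 (g⁻¹ v))
        have h4 : g (g⁻¹ v) = v := by
          change (g * g⁻¹) v = v
          rw [mul_inv_cancel]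
          rfl
        rw [h4, neg_sub] at h3
        exact h3 }
  have hle : G₁ ≤ Lin Γ := fun g hg => hg.1
  have hG₁ : Finite G₁ := Finite.of_injective (Subgroup.inclusion hle)
    (Subgroup.inclusion_injective hle)
  have : Fintype G₁ := Fintype.ofFinite _
  have hcard : (0 : ℝ) < Fintype.card G₁ := by exact_mod_cast Fintype.card_pos
  have hcardC : ((Fintype.card G₁ : ℕ) : ℂ) ≠ 0 := by exact_mod_cast Fintype.card_ne_zero
  -- a mirror moves vectors by elements of `K` or fixes `K`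
  have hdich : ∀ γ ∈ Γ, γ ≠ 1 → (∃ ℓ : V →ₗ[ℂ] ℂ, ℓ ≠ 0 ∧ ∃ c, ∀ x, ℓ x = c → γ x = x) →
      (∀ v, v - γ.linear v ∈ K) ∨ ∀ v ∈ K, γ.linear v = v := by
    rintro γ hγ hne ⟨ℓ, hℓ, c, hfix⟩
    obtain ⟨a, ha⟩ : ∃ a, ℓ a = 1 := by
      obtain ⟨a, ha⟩ : ∃ a, ℓ a ≠ 0 := by
        by_contra hcon
        push Not at hcon
        exact hℓ (LinearMap.ext hcon)
      exact ⟨(ℓ a)⁻¹ • a, by rw [map_smul, smul_eq_mul, inv_mul_cancel₀ ha]⟩
    have hker : ∀ v, ℓ v = 0 → γ.linear v = v := by
      intro v hv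
      have h1 := hfix (c • a) (by rw [map_smul, ha, smul_eq_mul, mul_one])
      have h2 := hfix (c • a + v) (by rw [map_add, hv, map_smul, ha, smul_eq_mul, mul_one,
        add_zero])
      rw [act_add, h1] at h2
      exact add_left_cancel h2
    let r := a - γ.linear a
    have hr : ∀ v, v - γ.linear v = ℓ v • r := by
      intro v
      have h1 := hker (v - ℓ v • a) (by rw [map_sub, map_smul, ha, smul_eq_mul, mul_one, sub_self])
      rw [map_sub, map_smul] at h1
      simp only [r]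
      rw [smul_sub]
      have h2 : γ.linear v = v - ℓ v • a + ℓ v • γ.linear a := by
        rw [← h1]
        abel
      rw [h2]
      abel
    by_cases hrK : r ∈ K
    · left
      intro v
      rw [hr]
      exact K.smul_mem _ hrK
    · right
      intro v hv
      have hr0 : r ≠ 0 := by
        intro h0
        rw [h0] at hrK
        exact hrK K.zero_mem
      have hgr : ∀ v, γ.linear v = v - ℓ v • r := by
        intro v
        rw [← hr]
        abel
      -- `ℓ r ≠ 0`
      have hℓr : ℓ r ≠ 0 := by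
        intro h0
        have h1 := hhinv γ hγ a r
        rw [hgr r, h0, zero_smul, sub_zero, hgr a, ha, one_smul, h_sub_left hh] at h1
        have h2 : h r r = 0 := by linear_combination -h1
        have h3 := hp r hr0
        rw [h2, Complex.zero_re] at h3
        exact lt_irrefl _ h3
      -- orthogonality
      have horth : ∀ x, ℓ x = 0 → H x r - (τ : ℂ) * h x r = 0 := by
        intro x hx
        have h1 := hinv' γ hγ x r
        have h2 : γ.linear r = (1 - ℓ r) • r := by
          rw [hgr r, sub_smul, one_smul]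
        rw [hker x hx, h2, h_smul_right hH, h_smul_right hh] at h1
        have h3 : starRingEnd ℂ (ℓ r) * (H x r - (τ : ℂ) * h x r) = 0 := by
          rw [map_sub, map_one] at h1
          linear_combination -h1
        exact (mul_eq_zero.1 h3).resolve_left ((map_ne_zero _).2 hℓr)
      have h1 : H v r - (τ : ℂ) * h v r = 0 := hv r
      have h2 : v = (v - (ℓ v / ℓ r) • r) + (ℓ v / ℓ r) • r := by abel
      have h3 := horth (v - (ℓ v / ℓ r) • r) (by
        rw [map_sub, map_smul, smul_eq_mul, div_mul_cancel₀ _ hℓr, sub_self])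
      rw [h_sub_left hH, h_sub_left hh, hH.smul_left, hh.smul_left] at h3
      have h4 : (ℓ v / ℓ r) * (H r r - (τ : ℂ) * h r r) = 0 := by
        linear_combination h1 - h3
      rcases mul_eq_zero.1 h4 with h5 | h5
      · have h6 : ℓ v = 0 := by
          rcases div_eq_zero_iff.1 h5 with h6 | h6
          · exact h6
          · exact absurd h6 hℓr
        exact hker v h6
      · exfalso
        apply hrK
        intro w
        refine h_isotropic hH' hnef r ?_ w
        change (H r r - (τ : ℂ) * h r r).re = 0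
        rw [h5, Complex.zero_re]
  -- the average
  have havg : ∀ v ∈ K, ∑ g : G₁, g.1 v = 0 := by
    intro v hv
    set s := ∑ g : G₁, g.1 v with hs
    have hsK : s ∈ K := by
      refine K.sum_mem fun g _ => ?_
      obtain ⟨γ, hγ, h1⟩ := g.2.1
      have h2 := hst γ hγ v hv
      have h3 : γ.linear = g.1 := h1
      rwa [h3] at h2
    have hfix : ∀ g ∈ G₁, g s = s := by
      intro g hg
      rw [hs, map_sum]
      exact Fintype.sum_equiv (Equiv.mulLeft (⟨g, hg⟩ : G₁)) _ _ fun g' => rfl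
    have hm : MirrorFixed Γ₀ s := by
      intro γ hγ hne hex
      rcases hdich γ (hΓ₀ hγ) hne hex with h1 | h1
      · exact hfix γ.linear ⟨⟨γ, hΓ₀ hγ, rfl⟩, h1⟩
      · exact h1 s hsK
    have h1 := hmir s hm
    rw [hK0 s hsK] at h1
    by_contra hne
    have h2 := hp s hne
    nlinarith
  -- `K` is spanned by lattice vectors
  have hrat : ∀ v ∈ K, v ∈ Submodule.span ℝ {b | b ∈ latt Γ ∧ b ∈ K} := by
    intro v hv
    set S := Submodule.span ℝ {b | b ∈ latt Γ ∧ b ∈ K} with hS
    have key : ∀ g : G₁, v - g.1 v ∈ S := by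
      intro g
      obtain ⟨γ, hγ, h1⟩ := g.2.1
      have h3 : γ.linear = g.1 := h1
      have hv' : v ∈ Submodule.span ℝ (latt Γ : Set V) := by
        rw [hΓ.span_top]
        trivial
      refine Submodule.span_induction (p := fun v _ => v - g.1 v ∈ S) ?_ ?_ ?_ ?_ hv'
      · intro b hb
        refine Submodule.subset_span ⟨(latt Γ).sub_mem hb ?_, g.2.2 b⟩
        rw [← h3]
        exact latt_inv γ hγ hb
      · rw [map_zero, sub_zero]
        exact S.zero_mem
      · intro x y _ _ hx hy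
        have h4 := S.add_mem hx hy
        have h5 : x - g.1 x + (y - g.1 y) = x + y - g.1 (x + y) := by
          rw [map_add]
          abel
        rwa [h5] at h4
      · intro c x _ hx
        have h4 := S.smul_mem c hx
        have h5 : c • (x - g.1 x) = c • x - g.1 (c • x) := by
          have h6 : c • x = (c : ℂ) • x := (Complex.coe_smul c x).symm
          rw [smul_sub, h6, map_smul, ← Complex.coe_smul c (g.1 x)]
        rwa [h5] at h4
    have h1 : ∑ g : G₁, (v - g.1 v) = (Fintype.card G₁ : ℝ) • v := by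
      rw [Finset.sum_sub_distrib, havg v hv, sub_zero, Finset.sum_const, Finset.card_univ,
        Nat.cast_smul_eq_nsmul]
    have h2 : v = (Fintype.card G₁ : ℝ)⁻¹ • ∑ g : G₁, (v - g.1 v) := by
      rw [h1, smul_smul, inv_mul_cancel₀ hcard.ne', one_smul]
    rw [h2]
    exact S.smul_mem _ (S.sum_mem fun g _ => key g)
  obtain ⟨k, Δ, π, hker, hfib⟩ := fibration_of_rational hΓ K hst hrat
  refine ⟨k, Δ, π, hfib, ⟨v₁, hv₁, (hker v₁).2 fun w => ?_⟩, fun v hv hv0 => ?_⟩
  · refine h_isotropic hH' hnef v₁ ?_ w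
    change (H v₁ v₁ - (τ : ℂ) * h v₁ v₁).re = 0
    rw [hre, hv₁e, sub_self]
  · rw [hK0 v ((hker v).1 hv0)]
    exact mul_neg_of_neg_of_pos hτ (hp v hv)

end Pool.Agent.D0H8.MM
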