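import Pool.Agent.D0H8.MM.Good
import Pool.Agent.D0H8.MM.Neg

/-!
# Pairs
-/

set_option autoImplicit false

namespace Pool.Agent.D0H8.MM

open Finset
open Pool.Agent.W594.SYZ2 Pool.Agent.W594.SYZ2.TQ Pool.Agent.TH735.AQ Pool.Agent.X324.CF
open Pool.Agent.Y167 (MirrorFixed)
open Pool.Agent.D0H8.PQ

variable {V R : Type*} [NormedAddCommGroup V] [NormedSpace ℂ V] [FiniteDimensional ℂ V]
  [CommRing R] [IsDomain R] [Algebra ℂ R] {ρ n : ℕ} {𝒜 : Cl ρ → Submodule ℂ R}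
  [GradedAlgebra 𝒜] {Γ : Grp V R} {u : Cl ρ} {H HK : V → V → ℂ}

/-- If the Chern form of `K_X + Δ` is not semidefinite, then there is a fibration. -/
theorem pair_fibration (hX : IsQuotient 𝒜 u Γ) (hK : IsCanonicalForm (vert 𝒜 Γ) HK)
    {ι : Type*} [Fintype ι] (Δ : EffDiv 𝒜 Γ ι) {𝓛 : Sheaf 𝒜 Γ} {N : ℕ}
    (hL : 𝓛.IsChern H)
    (hH : ∀ v w, H v w = N * (HK v w + ∑ i, (Δ.r i : ℂ) * Δ.H i v w)) (hneg : ¬ IsNefForm H) :
    ∃ (k : ℕ) (Γ' : Subgroup ((Fin k → ℂ) ≃ᵃ[ℂ] (Fin k → ℂ))) (π : V →ₗ[ℂ] (Fin k → ℂ)),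
      IsFibration (base Γ) Γ' π ∧ (∃ v, v ≠ 0 ∧ π v = 0) ∧
        ∀ v, v ≠ 0 → π v = 0 → (H v v).re < 0 := by
  refine neg_fibration hX.torus (vert_le (𝒜 := 𝒜)) hL.1 ?_ ?_ hneg
  · intro γ hγ v w
    obtain ⟨hH', F, hF, hFe⟩ := 𝓛.toLB_chern hX hL
    have h1 := h_inv hH' (L := 𝓛.toLB hX) (F := F) ⟨hF, hFe⟩ ⟨γ, hγ⟩ v w
    have h2 : (expo Γ : ℂ) ≠ 0 := by exact_mod_cast (expo_pos hX).ne'
    exact mul_left_cancel₀ h2 h1
  · intro w hw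
    have h1 := canonical_zero (vert_torus hX) hK hw
    have h2 : (H w w).re = N * ((HK w w).re + ∑ i, Δ.r i * (Δ.H i w w).re) := by
      have h3 : ((N : ℂ) * (HK w w + ∑ i, (Δ.r i : ℂ) * Δ.H i w w)).re
          = N * (HK w w + ∑ i, (Δ.r i : ℂ) * Δ.H i w w).re := by
        have h4 : (N : ℂ) = ((N : ℝ) : ℂ) := by push_cast; rfl
        rw [h4, Complex.re_ofReal_mul]
      rw [hH, h3, Complex.add_re, Complex.re_sum]
      congr 2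
      exact Finset.sum_congr rfl fun i _ => Complex.re_ofReal_mul _ _
    rw [h2, h1, zero_add]
    refine mul_nonneg (Nat.cast_nonneg _) (Finset.sum_nonneg fun i _ =>
      mul_nonneg (Δ.nonneg i) ?_)
    exact Sheaf.nef_of_section hX (Δ.chern i) (Δ.sect i) (Δ.ne_zero i) w

end Pool.Agent.D0H8.MM
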